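import Pool.Agent.Lib.MP_009d13_co.OD.Defs
import Pool.Agent.Lib.MP_009d13_co.P5.Defs

/-!
# The ring graph with l hubs: definitions for the lower bound
-/

set_option autoImplicit false

namespace Pool.Agent.Lib.MP_009d13_co.OL

open Finset Classical
open Pool.Agent.Lib.MP_009d13_co.P5 (IsMinor IsPlanar)
open Pool.Agent.Lib.MP_009d13_co.OD (NL pw aj Tk)

noncomputable section

/-- The hubs `0, ..., l - 1`; the low vertex `v ≥ l` is joined to the hubs `v % l` and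
`(v + 1) % l` and to `v + l`. -/
def ring (l n : ℕ) : SimpleGraph (Fin n) :=
  SimpleGraph.fromRel fun x y =>
    (x.1 < l ∧ l ≤ y.1 ∧ (y.1 % l = x.1 ∨ (y.1 + 1) % l = x.1)) ∨ (l ≤ x.1 ∧ y.1 = x.1 + l)

/-- The part of a graph inside a set. -/
def res {V : Type} (G : SimpleGraph V) (A : Set V) : SimpleGraph V where
  Adj x y := G.Adj x y ∧ x ∈ A ∧ y ∈ A
  symm := ⟨fun _ _ h => ⟨h.1.symm, h.2.2, h.2.1⟩⟩
  loopless := ⟨fun x h => G.loopless.irrefl x h.1⟩

/-- After removal of at most two vertices the graph is connected and not empty. -/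
def Conn3 {W : Type} (H : SimpleGraph W) : Prop :=
  ∀ P : W → Prop, (∃ w1 w2, ∀ w, ¬ P w → w = w1 ∨ w = w2) →
    (∃ w, P w) ∧ ∀ w w', P w → P w' →
      Relation.ReflTransGen (fun x y => H.Adj x y ∧ P x ∧ P y) w w'

/-- The hub cycle and the classes below `j`. -/
def tj (l n j : ℕ) : SimpleGraph (Fin n) :=
  SimpleGraph.fromRel fun x y =>
    (x.1 < l ∧ y.1 < l ∧ (x.1 + 1) % l = y.1) ∨
    (x.1 < l ∧ l ≤ y.1 ∧ y.1 % l < j ∧ (y.1 % l = x.1 ∨ (y.1 + 1) % l = x.1)) ∨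
    (l ≤ x.1 ∧ x.1 % l < j ∧ y.1 = x.1 + l)

/-- The `t`-th hub of the ring walk from `a` in direction `s`. -/
def hb (l : ℕ) (s : Bool) (a t : ℕ) : ℕ := (a + t * (if s then 1 else l - 1)) % l

/-- The class in the gap `t` of the walk (`c0`, `c1` choose the classes at the ends). -/
def gp (l : ℕ) (s : Bool) (a : ℕ) (c0 c1 : Bool) (t : ℕ) : ℕ :=
  if t = 0 then (if c0 then a else (a + (l - 1)) % l)
  else if t = l then
    (if c1 then hb l s a (l - 1) else (hb l s a (l - 1) + (l - 1)) % l)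
  else if s then hb l s a (t - 1) else hb l s a t

/-- Templates: direction, first hub, number of hubs before the edge between low vertices, classes
of the ends. -/
abbrev Tm (l : ℕ) : Type := Bool × Fin l × Fin (l + 1) × Bool × Bool

/-- The class of the `t`-th low vertex. -/
def lc (l : ℕ) (τ : Tm l) (t : ℕ) : ℕ :=
  gp l τ.1 τ.2.1.1 τ.2.2.2.1 τ.2.2.2.2 (if t ≤ τ.2.2.1.1 then t else t - 1)

/-- Low vertices of a template. -/
def Zs (l n : ℕ) (τ : Tm l) : Finset (Fin (l + 2) → Fin n) :=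
  univ.filter fun z => Function.Injective z ∧
    (∀ t, l ≤ (z t).1 ∧ (z t).1 % l = lc l τ t.1) ∧
    ∀ t t' : Fin (l + 2), t.1 = τ.2.2.1.1 → t'.1 = t.1 + 1 → (ring l n).Adj (z t) (z t')

/-- The `p`-th vertex (as a number) of the path of a template. -/
def vx (l n : ℕ) (τ : Tm l) (z : Fin (l + 2) → Fin n) (p : ℕ) : ℕ :=
  if p ≤ 2 * τ.2.2.1.1 then
    (if p % 2 = 0 then (if h : p / 2 < l + 2 then (z ⟨p / 2, h⟩).1 else 0)
      else hb l τ.1 τ.2.1.1 ((p - 1) / 2))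
  else (if p % 2 = 1 then (if h : (p + 1) / 2 < l + 2 then (z ⟨(p + 1) / 2, h⟩).1 else 0)
      else hb l τ.1 τ.2.1.1 (p / 2 - 1))

/-- Pairs of adjacent low vertices in a class. -/
def Ep (l n c : ℕ) : Finset (Fin n × Fin n) :=
  univ.filter fun p => l ≤ p.1.1 ∧ p.1.1 % l = c ∧ l ≤ p.2.1 ∧ p.2.1 % l = c ∧
    (p.2.1 = p.1.1 + l ∨ p.1.1 = p.2.1 + l)

end

end Pool.Agent.Lib.MP_009d13_co.OL
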