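import Pool.Agent.Lib.MP_009d13_co.OL.Defs

/-!
# OL1

The double fan. For a connected set S (G.induce S connected) that avoids a and b, the image r(S)
is an interval of integers: if x, y ∈ S, r x < k < r y and no vertex of S has r = k, then a walk
in S from x never passes k (the steps change r by one): adapt P5/LOW1.lean (dfan_reach,
dfan_interval, dfan_disj, dfan_adjI, dfan_good, dfan_planar, where V = Fin n, a = 0, b = 1, r =
index) to this setting. Disjoint such sets have disjoint intervals (hinj); adjacent ones have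
consecutive intervals. K_5: at least three of the five branch sets avoid a and b and are mutually
adjacent intervals: impossible. K_{3,3}: at least four branch sets avoid a and b; among them there
is a star K_{1,3} or a cycle K_{2,2}; an interval has at most one adjacent interval on each side,
no cycle. (a = b is allowed.) IsPlanar is the conjunction of the two statements.
-/

set_option autoImplicit false

namespace Pool.Agent.Lib.MP_009d13_co.OL

open Finset Classical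
open Pool.Agent.Lib.MP_009d13_co.P5 (IsMinor IsPlanar)
open Pool.Agent.Lib.MP_009d13_co.OD (NL pw aj Tk)

noncomputable section

theorem ol1_bool5 : ∀ P : Fin 5 → Bool,
    (∀ a b c, a ≠ b → a ≠ c → b ≠ c → (P a = true ∨ P b = true ∨ P c = true)) →
    ∃ a b c, a ≠ b ∧ a ≠ c ∧ b ≠ c ∧ P a = true ∧ P b = true ∧ P c = true := by
  decide

theorem ol1_two_of_three (P : Fin 3 → Prop) :
    (∃ a b, a ≠ b ∧ P a ∧ P b) ∨ (∃ a b, a ≠ b ∧ ¬ P a ∧ ¬ P b) := by
  by_cases h0 : P 0 <;> by_cases h1 : P 1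
  · exact Or.inl ⟨0, 1, by decide, h0, h1⟩
  · by_cases h2 : P 2
    · exact Or.inl ⟨0, 2, by decide, h0, h2⟩
    · exact Or.inr ⟨1, 2, by decide, h1, h2⟩
  · by_cases h2 : P 2
    · exact Or.inl ⟨1, 2, by decide, h1, h2⟩
    · exact Or.inr ⟨0, 2, by decide, h0, h2⟩
  · exact Or.inr ⟨0, 1, by decide, h0, h1⟩

/-- The set avoids both centres. -/
def ol1Av {V : Type} (a b : V) (S : Set V) : Prop := ∀ v ∈ S, v ≠ a ∧ v ≠ b

/-- A nonempty set whose image is an interval; `hi` is the largest value if the set is bounded. -/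
def ol1I {V : Type} (r : V → ℕ) (S : Set V) (lo hi : ℕ) : Prop :=
  lo ≤ hi ∧ (∃ v ∈ S, r v = lo) ∧ (∀ v ∈ S, lo ≤ r v) ∧
  (((∃ v ∈ S, r v = hi) ∧ ∀ v ∈ S, r v ≤ hi) ∨ ∀ k, ∃ v ∈ S, k ≤ r v) ∧
  ∀ k, lo ≤ k → (∃ v ∈ S, k ≤ r v) → ∃ v ∈ S, r v = k

theorem ol1_reach {V : Type} {G : SimpleGraph V} {a b : V} {r : V → ℕ}
    (hadj : ∀ x y, x ≠ a → x ≠ b → y ≠ a → y ≠ b → G.Adj x y → r y = r x + 1 ∨ r x = r y + 1)
    {S : Set V} (hS : ol1Av a b S) (k : ℕ)
    (hk : ∀ v ∈ S, r v ≠ k) {x y : S} (p : (G.induce S).Walk x y) (hx : r x.1 < k) :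
    r y.1 < k := by
  induction p with
  | nil => exact hx
  | @cons u v w huv p ih =>
    refine ih ?_
    have h1 : G.Adj u.1 v.1 := huv
    have h2 := hadj u.1 v.1 (hS _ u.2).1 (hS _ u.2).2 (hS _ v.2).1 (hS _ v.2).2 h1
    have h3 := hk _ v.2
    omega

theorem ol1_interval {V : Type} {G : SimpleGraph V} {a b : V} {r : V → ℕ}
    (hadj : ∀ x y, x ≠ a → x ≠ b → y ≠ a → y ≠ b → G.Adj x y → r y = r x + 1 ∨ r x = r y + 1)
    {S : Set V} (hS : ol1Av a b S) (hc : (G.induce S).Connected) :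
    ∃ lo hi : ℕ, ol1I r S lo hi := by
  classical
  obtain ⟨v0⟩ := hc.nonempty
  have hex : ∃ k, ∃ v ∈ S, r v = k := ⟨r v0.1, v0.1, v0.2, rfl⟩
  obtain ⟨x, hxS, hx⟩ := Nat.find_spec hex
  have hmin : ∀ v ∈ S, Nat.find hex ≤ r v := fun v hv => Nat.find_min' hex ⟨v, hv, rfl⟩
  have hconv : ∀ k, Nat.find hex ≤ k → (∃ v ∈ S, k ≤ r v) → ∃ v ∈ S, r v = k := by
    intro k hk ⟨y, hyS, hy⟩
    by_contra hcon
    push Not at hcon
    obtain ⟨p⟩ := hc.preconnected ⟨x, hxS⟩ ⟨y, hyS⟩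
    have h1 := hcon x hxS
    have h2 := ol1_reach hadj hS k hcon p (by
      show r x < k
      omega)
    have h3 : r y < k := h2
    omega
  by_cases hb : ∃ m, ∀ v ∈ S, r v ≤ m
  · obtain ⟨m, hm⟩ := hb
    have hex2 : ∃ m, ∀ v ∈ S, r v ≤ m := ⟨m, hm⟩
    have hmax := Nat.find_spec hex2
    have hatt : ∃ v ∈ S, r v = Nat.find hex2 := by
      by_contra hcon
      push Not at hcon
      have h1 : 0 < Nat.find hex2 := by
        have h2 := hmax v0.1 v0.2
        have h3 := hcon v0.1 v0.2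
        omega
      refine Nat.find_min hex2 (m := Nat.find hex2 - 1) (by omega) (fun v hv => ?_)
      have h2 := hmax v hv
      have h3 := hcon v hv
      omega
    refine ⟨Nat.find hex, Nat.find hex2, ?_, ⟨x, hxS, hx⟩, hmin, Or.inl ⟨hatt, hmax⟩, hconv⟩
    rw [← hx]
    exact hmax x hxS
  · push Not at hb
    refine ⟨Nat.find hex, Nat.find hex, le_refl _, ⟨x, hxS, hx⟩, hmin, Or.inr (fun k => ?_), hconv⟩
    obtain ⟨v, hv, h⟩ := hb k
    exact ⟨v, hv, h.le⟩

theorem ol1_disj {V : Type} {a b : V} {r : V → ℕ}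
    (hinj : ∀ x y, x ≠ a → x ≠ b → y ≠ a → y ≠ b → r x = r y → x = y)
    {S T : Set V} (hSa : ol1Av a b S) (hTa : ol1Av a b T) {l h l' h' : ℕ}
    (hS : ol1I r S l h) (hT : ol1I r T l' h') (hd : Disjoint S T) :
    (h < l' ∧ ∀ v ∈ S, r v ≤ h) ∨ (h' < l ∧ ∀ v ∈ T, r v ≤ h') := by
  have key : ∀ (S T : Set V) (l h l' h' : ℕ), ol1Av a b S → ol1Av a b T → ol1I r S l h →
      ol1I r T l' h' → Disjoint S T → l ≤ l' → (h < l' ∧ ∀ v ∈ S, r v ≤ h) := by
    intro S T l h l' h' hSa hTa hS hT hd hl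
    obtain ⟨-, -, -, hSb, hSc⟩ := hS
    obtain ⟨-, ⟨w, hwT, hw⟩, -, -, -⟩ := hT
    have hno : ¬ ∃ v ∈ S, l' ≤ r v := by
      intro hex
      obtain ⟨z, hzS, hz⟩ := hSc l' hl hex
      have e := hinj z w (hSa z hzS).1 (hSa z hzS).2 (hTa w hwT).1 (hTa w hwT).2
        (by rw [hz, hw])
      exact Set.disjoint_left.mp hd hzS (by rwa [e])
    rcases hSb with ⟨⟨v, hvS, hv⟩, hm⟩ | hub
    · refine ⟨?_, hm⟩
      by_contra hcon
      exact hno ⟨v, hvS, by omega⟩
    · exact absurd (hub l') hno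
  rcases le_total l l' with hl | hl
  · exact Or.inl (key S T l h l' h' hSa hTa hS hT hd hl)
  · exact Or.inr (key T S l' h' l h hTa hSa hT hS hd.symm hl)

theorem ol1_adjI {V : Type} {G : SimpleGraph V} {a b : V} {r : V → ℕ}
    (hadj : ∀ x y, x ≠ a → x ≠ b → y ≠ a → y ≠ b → G.Adj x y → r y = r x + 1 ∨ r x = r y + 1)
    {S T : Set V} (hSa : ol1Av a b S) (hTa : ol1Av a b T) {l h l' h' : ℕ}
    (hS : ol1I r S l h) (hT : ol1I r T l' h')
    (hd : (h < l' ∧ ∀ v ∈ S, r v ≤ h) ∨ (h' < l ∧ ∀ v ∈ T, r v ≤ h'))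
    (hxy : ∃ x ∈ S, ∃ y ∈ T, G.Adj x y) : h + 1 = l' ∨ h' + 1 = l := by
  obtain ⟨x, hx, y, hy, hxy⟩ := hxy
  have h1 := hadj x y (hSa x hx).1 (hSa x hx).2 (hTa y hy).1 (hTa y hy).2 hxy
  have h2 := hS.2.2.1 x hx
  have h3 := hT.2.2.1 y hy
  rcases hd with ⟨h4, h5⟩ | ⟨h4, h5⟩
  · have h6 := h5 x hx
    omega
  · have h6 := h5 y hy
    omega

/-- three disjoint sets contain one which avoids `a` and `b` -/
theorem ol1_good {V : Type} (p q : V) {W : Type*} (B : W → Set V)
    (hd : ∀ w w', w ≠ w' → Disjoint (B w) (B w')) {a b c : W} (hab : a ≠ b) (hac : a ≠ c)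
    (hbc : b ≠ c) :
    ol1Av p q (B a) ∨ ol1Av p q (B b) ∨ ol1Av p q (B c) := by
  by_contra hcon
  unfold ol1Av at hcon
  push Not at hcon
  obtain ⟨⟨x, hx, hx2⟩, ⟨y, hy, hy2⟩, ⟨z, hz, hz2⟩⟩ := hcon
  have h1 : x ≠ y := fun h => Set.disjoint_left.mp (hd a b hab) hx (by rwa [h])
  have h2 : x ≠ z := fun h => Set.disjoint_left.mp (hd a c hac) hx (by rwa [h])
  have h3 : y ≠ z := fun h => Set.disjoint_left.mp (hd b c hbc) hy (by rwa [h])
  by_cases e1 : x = p
  · by_cases e2 : y = p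
    · exact h1 (e1.trans e2.symm)
    · by_cases e3 : z = p
      · exact h2 (e1.trans e3.symm)
      · exact h3 ((hy2 e2).trans (hz2 e3).symm)
  · by_cases e2 : y = p
    · by_cases e3 : z = p
      · exact h3 (e2.trans e3.symm)
      · exact h2 ((hx2 e1).trans (hz2 e3).symm)
    · exact h1 ((hx2 e1).trans (hy2 e2).symm)

theorem fan_minor {V : Type} (G : SimpleGraph V) (a b : V) (r : V → ℕ)
    (hinj : ∀ x y, x ≠ a → x ≠ b → y ≠ a → y ≠ b → r x = r y → x = y)
    (hadj : ∀ x y, x ≠ a → x ≠ b → y ≠ a → y ≠ b → G.Adj x y → r y = r x + 1 ∨ r x = r y + 1) :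
    IsPlanar G := by
  set p0 := a
  set q0 := b
  constructor
  · rintro ⟨B, hc, hd, ha⟩
    have hI : ∀ w, ∃ lo hi : ℕ, ol1Av p0 q0 (B w) → ol1I r (B w) lo hi := by
      intro w
      by_cases hw : ol1Av p0 q0 (B w)
      · obtain ⟨lo, hi, h⟩ := ol1_interval hadj hw (hc w)
        exact ⟨lo, hi, fun _ => h⟩
      · exact ⟨0, 0, fun h => absurd h hw⟩
    choose lo hi hI using hI
    have hF : ∀ w w', w ≠ w' → ol1Av p0 q0 (B w) → ol1Av p0 q0 (B w') →
        lo w ≤ hi w ∧ lo w' ≤ hi w' ∧ (hi w < lo w' ∨ hi w' < lo w) := by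
      intro w w' hne hw hw'
      have h1 := hI w hw
      have h4 := hI w' hw'
      have h5 := ol1_disj hinj hw hw' h1 h4 (hd w w' hne)
      exact ⟨h1.1, h4.1, h5.imp (fun h => h.1) (fun h => h.1)⟩
    have hG : ∀ w w', w ≠ w' → ol1Av p0 q0 (B w) → ol1Av p0 q0 (B w') →
        (hi w + 1 = lo w' ∨ hi w' + 1 = lo w) := by
      intro w w' hne hw hw'
      exact ol1_adjI hadj hw hw' (hI w hw) (hI w' hw')
        (ol1_disj hinj hw hw' (hI w hw) (hI w' hw') (hd w w' hne)) (ha w w' hne)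
    obtain ⟨a, b, c, hab, hac, hbc, pa, pb, pc⟩ := ol1_bool5
      (fun w => decide (ol1Av p0 q0 (B w))) (fun a b c hab hac hbc => by
        simpa using ol1_good p0 q0 B hd hab hac hbc)
    simp only [decide_eq_true_eq] at pa pb pc
    have := hF a b hab pa pb
    have := hF a c hac pa pc
    have := hF b c hbc pb pc
    have := hG a b hab pa pb
    have := hG a c hac pa pc
    have := hG b c hbc pb pc
    omega
  · rintro ⟨B, hc, hd, ha⟩
    have hI : ∀ w, ∃ lo hi : ℕ, ol1Av p0 q0 (B w) → ol1I r (B w) lo hi := by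
      intro w
      by_cases hw : ol1Av p0 q0 (B w)
      · obtain ⟨lo, hi, h⟩ := ol1_interval hadj hw (hc w)
        exact ⟨lo, hi, fun _ => h⟩
      · exact ⟨0, 0, fun h => absurd h hw⟩
    choose lo hi hI using hI
    have hF : ∀ w w', w ≠ w' → ol1Av p0 q0 (B w) → ol1Av p0 q0 (B w') →
        lo w ≤ hi w ∧ lo w' ≤ hi w' ∧ (hi w < lo w' ∨ hi w' < lo w) := by
      intro w w' hne hw hw'
      have h1 := hI w hw
      have h4 := hI w' hw'
      have h5 := ol1_disj hinj hw hw' h1 h4 (hd w w' hne)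
      exact ⟨h1.1, h4.1, h5.imp (fun h => h.1) (fun h => h.1)⟩
    have hG : ∀ i j : Fin 3, ol1Av p0 q0 (B (Sum.inl i)) → ol1Av p0 q0 (B (Sum.inr j)) →
        (hi (Sum.inl i) + 1 = lo (Sum.inr j) ∨ hi (Sum.inr j) + 1 = lo (Sum.inl i)) := by
      intro i j hw hw'
      exact ol1_adjI hadj hw hw' (hI _ hw) (hI _ hw')
        (ol1_disj hinj hw hw' (hI _ hw) (hI _ hw') (hd _ _ (by simp))) (ha _ _ (by simp))
    -- three good sets on one side and one on the other side are impossible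
    have hL : ∀ c, (∀ i, ol1Av p0 q0 (B (Sum.inl i))) → ol1Av p0 q0 (B (Sum.inr c)) →
        False := by
      intro c hp pc
      have := hF (Sum.inl 0) (Sum.inl 1) (by simp) (hp 0) (hp 1)
      have := hF (Sum.inl 0) (Sum.inl 2) (by simp) (hp 0) (hp 2)
      have := hF (Sum.inl 1) (Sum.inl 2) (by simp) (hp 1) (hp 2)
      have := hF (Sum.inl 0) (Sum.inr c) (by simp) (hp 0) pc
      have := hG 0 c (hp 0) pc
      have := hG 1 c (hp 1) pc
      have := hG 2 c (hp 2) pc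
      omega
    have hR : ∀ c, (∀ i, ol1Av p0 q0 (B (Sum.inr i))) → ol1Av p0 q0 (B (Sum.inl c)) →
        False := by
      intro c hp pc
      have := hF (Sum.inr 0) (Sum.inr 1) (by simp) (hp 0) (hp 1)
      have := hF (Sum.inr 0) (Sum.inr 2) (by simp) (hp 0) (hp 2)
      have := hF (Sum.inr 1) (Sum.inr 2) (by simp) (hp 1) (hp 2)
      have := hF (Sum.inr 0) (Sum.inl c) (by simp) (hp 0) pc
      have := hG c 0 pc (hp 0)
      have := hG c 1 pc (hp 1)
      have := hG c 2 pc (hp 2)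
      omega
    have hgL : ∃ c, ol1Av p0 q0 (B (Sum.inl c)) := by
      rcases ol1_good p0 q0 B hd (a := Sum.inl 0) (b := Sum.inl 1) (c := Sum.inl 2)
        (by simp) (by simp) (by simp) with h | h | h <;> exact ⟨_, h⟩
    have hgR : ∃ c, ol1Av p0 q0 (B (Sum.inr c)) := by
      rcases ol1_good p0 q0 B hd (a := Sum.inr 0) (b := Sum.inr 1) (c := Sum.inr 2)
        (by simp) (by simp) (by simp) with h | h | h <;> exact ⟨_, h⟩
    rcases ol1_two_of_three (fun i => ol1Av p0 q0 (B (Sum.inl i))) with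
      ⟨a, b, hab, pa, pb⟩ | ⟨a, b, hab, pa, pb⟩
    · rcases ol1_two_of_three (fun i => ol1Av p0 q0 (B (Sum.inr i))) with
        ⟨c, d, hcd, pc, pd⟩ | ⟨c, d, hcd, pc, pd⟩
      · have := hF (Sum.inl a) (Sum.inl b) (by simpa using hab) pa pb
        have := hF (Sum.inr c) (Sum.inr d) (by simpa using hcd) pc pd
        have := hG a c pa pc
        have := hG a d pa pd
        have := hG b c pb pc
        have := hG b d pb pd
        omega
      · obtain ⟨e, he⟩ := hgR
        refine hL e (fun i => ?_) he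
        rcases ol1_good p0 q0 B hd (a := Sum.inr c) (b := Sum.inr d) (c := Sum.inl i)
          (by simpa using hcd) (by simp) (by simp) with h | h | h
        · exact absurd h pc
        · exact absurd h pd
        · exact h
    · obtain ⟨e, he⟩ := hgL
      refine hR e (fun i => ?_) he
      rcases ol1_good p0 q0 B hd (a := Sum.inl a) (b := Sum.inl b) (c := Sum.inr i)
        (by simpa using hab) (by simp) (by simp) with h | h | h
      · exact absurd h pa
      · exact absurd h pb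
      · exact h


end

end Pool.Agent.Lib.MP_009d13_co.OL
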