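import Pool.Agent.Lib.MP_009d13_co.OL.Defs

/-!
# OL10

vx_inj: hubs and lows are separated by l; hubs: hb l s a t is injective for t < l (a + t or a - t
mod l); lows: z injective, and the index is a function of p that is injective on the low
positions. vx_unique: i: if i < i' then position 2i+1 is low for τ and a hub for τ' ; hubs: a_0 =
a, a_1 gives s since l ≥ 3; (hub index 0 is at position 1 if i ≥ 1 and at position 2 if i = 0,
etc.); z = z' from the low positions (every index < l + 2 occurs); c0 from the class of z_0 (a ≠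
(a + l - 1) % l), c1 from the class of z_(l+1).
-/

set_option autoImplicit false

namespace Pool.Agent.Lib.MP_009d13_co.OL

open Finset Classical
open Pool.Agent.Lib.MP_009d13_co.P5 (IsMinor IsPlanar)
open Pool.Agent.Lib.MP_009d13_co.OD (NL pw aj Tk)

noncomputable section

/-- low positions -/
def ol10_low (i p : ℕ) : Prop := (p ≤ 2 * i ∧ p % 2 = 0) ∨ (2 * i < p ∧ p % 2 = 1)

/-- index of a low position -/
def ol10_li (i p : ℕ) : ℕ := if p ≤ 2 * i then p / 2 else (p + 1) / 2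

/-- index of a hub position -/
def ol10_hi (i p : ℕ) : ℕ := if p ≤ 2 * i then (p - 1) / 2 else p / 2 - 1

theorem ol10_hb_lt {l : ℕ} (hl : 0 < l) (s : Bool) (a t : ℕ) : hb l s a t < l := Nat.mod_lt _ hl

theorem ol10_hb_inj {l : ℕ} (hl : 3 ≤ l) (s : Bool) (a : ℕ) {t t' : ℕ} (ht : t < l) (ht' : t' < l)
    (h : hb l s a t = hb l s a t') : t = t' := by
  unfold hb at h
  have h1 : t * (if s then 1 else l - 1) ≡ t' * (if s then 1 else l - 1) [MOD l] :=
    Nat.ModEq.add_left_cancel' a h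
  have h2 : Nat.gcd l (if s then 1 else l - 1) = 1 := by
    cases s
    · simp only [Bool.false_eq_true, if_false]
      have : Nat.Coprime l (l - 1) := by
        rw [Nat.coprime_comm]
        exact (Nat.coprime_self_sub_left (by omega)).2 (Nat.coprime_one_left l)
      exact this
    · simp
  exact Nat.ModEq.eq_of_lt_of_lt (Nat.ModEq.cancel_right_of_coprime h2 h1) ht ht'

theorem ol10_vx_low {l n : ℕ} (τ : Tm l) (z : Fin (l + 2) → Fin n) {p : ℕ} (hp : p < 2 * l + 2)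
    (h : ol10_low τ.2.2.1.1 p) : ∃ hlt : ol10_li τ.2.2.1.1 p < l + 2,
      vx l n τ z p = (z ⟨ol10_li τ.2.2.1.1 p, hlt⟩).1 := by
  have hi : τ.2.2.1.1 < l + 1 := τ.2.2.1.isLt
  unfold ol10_low at h
  have hlt : ol10_li τ.2.2.1.1 p < l + 2 := by
    unfold ol10_li
    split_ifs <;> omega
  refine ⟨hlt, ?_⟩
  unfold vx
  rcases h with ⟨h1, h2⟩ | ⟨h1, h2⟩
  · have e : ol10_li τ.2.2.1.1 p = p / 2 := by unfold ol10_li; rw [if_pos h1]
    rw [if_pos h1, if_pos h2, dif_pos (by rw [← e]; exact hlt)]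
    congr 2
    exact Fin.ext e.symm
  · have e : ol10_li τ.2.2.1.1 p = (p + 1) / 2 := by unfold ol10_li; rw [if_neg (by omega)]
    rw [if_neg (by omega), if_pos h2, dif_pos (by rw [← e]; exact hlt)]
    congr 2
    exact Fin.ext e.symm

theorem ol10_vx_hub {l n : ℕ} (τ : Tm l) (z : Fin (l + 2) → Fin n) {p : ℕ} (hp : p < 2 * l + 2)
    (h : ¬ ol10_low τ.2.2.1.1 p) : ol10_hi τ.2.2.1.1 p < l ∧
      vx l n τ z p = hb l τ.1 τ.2.1.1 (ol10_hi τ.2.2.1.1 p) := by
  have hi : τ.2.2.1.1 < l + 1 := τ.2.2.1.isLt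
  unfold ol10_low at h
  push Not at h
  have h0 := h.1
  have h0' := h.2
  unfold ol10_hi vx
  by_cases h1 : p ≤ 2 * τ.2.2.1.1
  · rw [if_pos h1, if_pos h1, if_neg (by have := h0 h1; omega)]
    have := h0 h1
    refine ⟨by omega, ?_⟩
    rfl
  · have h3 := h0' (by omega)
    rw [if_neg h1, if_neg h1, if_neg h3]
    refine ⟨by omega, ?_⟩
    rfl

theorem ol10_ge {l n : ℕ} {τ : Tm l} {z : Fin (l + 2) → Fin n} (hz : z ∈ Zs l n τ)
    (t : Fin (l + 2)) : l ≤ (z t).1 := by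
  unfold Zs at hz
  rw [Finset.mem_filter] at hz
  exact (hz.2.2.1 t).1

theorem ol10_mod {l n : ℕ} {τ : Tm l} {z : Fin (l + 2) → Fin n} (hz : z ∈ Zs l n τ)
    (t : Fin (l + 2)) : (z t).1 % l = lc l τ t.1 := by
  unfold Zs at hz
  rw [Finset.mem_filter] at hz
  exact (hz.2.2.1 t).2

theorem vx_inj {l n : ℕ} (hl : 3 ≤ l) (hn : l < n) (τ : Tm l) {z : Fin (l + 2) → Fin n}
    (hz : z ∈ Zs l n τ) {p q : ℕ} (hp : p < 2 * l + 2) (hq : q < 2 * l + 2)
    (h : vx l n τ z p = vx l n τ z q) : p = q := by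
  have hinj : Function.Injective z := by
    unfold Zs at hz
    rw [Finset.mem_filter] at hz
    exact hz.2.1
  by_cases a : ol10_low τ.2.2.1.1 p <;> by_cases b : ol10_low τ.2.2.1.1 q
  · obtain ⟨x1, x2⟩ := ol10_vx_low τ z hp a
    obtain ⟨y1, y2⟩ := ol10_vx_low τ z hq b
    rw [x2, y2] at h
    have h1 := hinj (Fin.ext h)
    have h2 : ol10_li τ.2.2.1.1 p = ol10_li τ.2.2.1.1 q := congrArg Fin.val h1
    unfold ol10_low at a b
    unfold ol10_li at h2
    split_ifs at h2 <;> omega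
  · obtain ⟨x1, x2⟩ := ol10_vx_low τ z hp a
    obtain ⟨y1, y2⟩ := ol10_vx_hub τ z hq b
    have c1 := ol10_ge hz ⟨_, x1⟩
    have c2 := ol10_hb_lt (show 0 < l by omega) τ.1 τ.2.1.1 (ol10_hi τ.2.2.1.1 q)
    omega
  · obtain ⟨x1, x2⟩ := ol10_vx_low τ z hq b
    obtain ⟨y1, y2⟩ := ol10_vx_hub τ z hp a
    have c1 := ol10_ge hz ⟨_, x1⟩
    have c2 := ol10_hb_lt (show 0 < l by omega) τ.1 τ.2.1.1 (ol10_hi τ.2.2.1.1 p)
    omega
  · obtain ⟨x1, x2⟩ := ol10_vx_hub τ z hp a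
    obtain ⟨y1, y2⟩ := ol10_vx_hub τ z hq b
    rw [x2, y2] at h
    have h2 := ol10_hb_inj hl _ _ x1 y1 h
    unfold ol10_low at a b
    unfold ol10_hi at h2
    split_ifs at h2 <;> omega

theorem ol10_place {l n : ℕ} (hl : 3 ≤ l) (τ τ' : Tm l) {z z' : Fin (l + 2) → Fin n}
    (hz : z ∈ Zs l n τ)
    (h : ∀ p < 2 * l + 2, vx l n τ z p = vx l n τ' z' p) : ¬ τ.2.2.1.1 < τ'.2.2.1.1 := by
  intro hlt
  have hi : τ'.2.2.1.1 < l + 1 := τ'.2.2.1.isLt
  have hp : 2 * τ.2.2.1.1 + 1 < 2 * l + 2 := by omega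
  obtain ⟨x1, x2⟩ := ol10_vx_low τ z hp (Or.inr ⟨by omega, by omega⟩)
  obtain ⟨y1, y2⟩ := ol10_vx_hub τ' z' hp (by unfold ol10_low; omega)
  have c1 := ol10_ge hz ⟨_, x1⟩
  have c2 := ol10_hb_lt (show 0 < l by omega) τ'.1 τ'.2.1.1
    (ol10_hi τ'.2.2.1.1 (2 * τ.2.2.1.1 + 1))
  have := h _ hp
  omega

theorem ol10_step {l : ℕ} (hl : 3 ≤ l) {a : ℕ} (ha : a < l) : a ≠ (a + (l - 1)) % l := by
  intro h
  rcases Nat.eq_zero_or_pos a with h0 | h0
  · subst h0
    rw [Nat.mod_eq_of_lt (by omega)] at h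
    omega
  · have e : a + (l - 1) = (a - 1) + l := by omega
    rw [e, Nat.add_mod_right, Nat.mod_eq_of_lt (by omega)] at h
    omega

theorem ol10_dir {l : ℕ} (hl : 3 ≤ l) {a : ℕ} (ha : a < l) :
    (a + 1) % l ≠ (a + (l - 1)) % l := by
  intro h
  have h1 : 1 ≡ l - 1 [MOD l] := Nat.ModEq.add_left_cancel' a h
  have := Nat.ModEq.eq_of_lt_of_lt h1 (by omega) (by omega)
  omega

theorem ol10_lc_last {l : ℕ} (hl : 3 ≤ l) (τ : Tm l) : lc l τ (l + 1) =
    if τ.2.2.2.2 then hb l τ.1 τ.2.1.1 (l - 1) else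
      (hb l τ.1 τ.2.1.1 (l - 1) + (l - 1)) % l := by
  unfold lc gp
  rw [if_neg (show ¬ (l + 1 ≤ τ.2.2.1.1) by have := τ.2.2.1.isLt; omega),
    Nat.add_sub_cancel, if_neg (show ¬ l = 0 by omega), if_pos rfl]

theorem vx_unique {l n : ℕ} (hl : 3 ≤ l) (hn : l < n) (τ τ' : Tm l) {z z' : Fin (l + 2) → Fin n}
    (hz : z ∈ Zs l n τ) (hz' : z' ∈ Zs l n τ')
    (h : ∀ p < 2 * l + 2, vx l n τ z p = vx l n τ' z' p) : τ = τ' ∧ z = z' := by
  have hi : τ.2.2.1.1 < l + 1 := τ.2.2.1.isLt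
  have hplace : τ.2.2.1.1 = τ'.2.2.1.1 := by
    have a := ol10_place hl τ τ' hz h
    have b := ol10_place hl τ' τ hz' (fun p hp => (h p hp).symm)
    omega
  have hhub : ∀ t < l, hb l τ.1 τ.2.1.1 t = hb l τ'.1 τ'.2.1.1 t := by
    intro t ht
    obtain ⟨p, hp, hlow, hhi⟩ : ∃ p, p < 2 * l + 2 ∧ ¬ ol10_low τ.2.2.1.1 p ∧
        ol10_hi τ.2.2.1.1 p = t := by
      by_cases hti : t < τ.2.2.1.1
      · refine ⟨2 * t + 1, by omega, by unfold ol10_low; omega, ?_⟩
        unfold ol10_hi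
        split_ifs <;> omega
      · refine ⟨2 * t + 2, by omega, by unfold ol10_low; omega, ?_⟩
        unfold ol10_hi
        split_ifs <;> omega
    obtain ⟨_, x2⟩ := ol10_vx_hub τ z hp hlow
    have hlow' : ¬ ol10_low τ'.2.2.1.1 p := by rw [← hplace]; exact hlow
    obtain ⟨_, y2⟩ := ol10_vx_hub τ' z' hp hlow'
    have := h p hp
    rw [x2, y2, ← hplace, hhi] at this
    exact this
  have hzz : z = z' := by
    funext t
    obtain ⟨p, hp, hlow, hli⟩ : ∃ p, p < 2 * l + 2 ∧ ol10_low τ.2.2.1.1 p ∧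
        ol10_li τ.2.2.1.1 p = t.1 := by
      have ht := t.isLt
      by_cases hti : t.1 ≤ τ.2.2.1.1
      · refine ⟨2 * t.1, by omega, by unfold ol10_low; omega, ?_⟩
        unfold ol10_li
        split_ifs <;> omega
      · refine ⟨2 * t.1 - 1, by omega, by unfold ol10_low; omega, ?_⟩
        unfold ol10_li
        split_ifs <;> omega
    obtain ⟨x1, x2⟩ := ol10_vx_low τ z hp hlow
    have hlow' : ol10_low τ'.2.2.1.1 p := by rw [← hplace]; exact hlow
    obtain ⟨y1, y2⟩ := ol10_vx_low τ' z' hp hlow'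
    have := h p hp
    rw [x2, y2] at this
    have e1 : (⟨_, x1⟩ : Fin (l + 2)) = t := Fin.ext hli
    have e2 : (⟨_, y1⟩ : Fin (l + 2)) = t := Fin.ext (by
      change ol10_li τ'.2.2.1.1 p = t.1
      rw [← hplace]
      exact hli)
    rw [e1, e2] at this
    exact Fin.ext this
  have ha : τ.2.1.1 = τ'.2.1.1 := by
    have := hhub 0 (by omega)
    unfold hb at this
    rwa [zero_mul, zero_mul, add_zero, add_zero, Nat.mod_eq_of_lt τ.2.1.isLt,
      Nat.mod_eq_of_lt τ'.2.1.isLt] at this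
  have hs : τ.1 = τ'.1 := by
    have h1 := hhub 1 (by omega)
    unfold hb at h1
    rw [one_mul, one_mul, ← ha] at h1
    have h2 := ol10_dir hl τ.2.1.isLt
    cases e1 : τ.1 <;> cases e2 : τ'.1
    · rfl
    · rw [e1, e2] at h1
      simp only [Bool.false_eq_true, if_false, if_true] at h1
      exact absurd h1.symm h2
    · rw [e1, e2] at h1
      simp only [Bool.false_eq_true, if_false, if_true] at h1
      exact absurd h1 h2
    · rfl
  have hc0 : τ.2.2.2.1 = τ'.2.2.2.1 := by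
    have h1 := ol10_mod hz ⟨0, by omega⟩
    have h2 := ol10_mod hz' ⟨0, by omega⟩
    rw [← hzz, h1] at h2
    unfold lc gp at h2
    simp only [Nat.zero_le, if_true] at h2
    rw [← ha] at h2
    have h3 := ol10_step hl τ.2.1.isLt
    cases e1 : τ.2.2.2.1 <;> cases e2 : τ'.2.2.2.1
    · rfl
    · rw [e1, e2] at h2
      simp only [Bool.false_eq_true, if_false, if_true] at h2
      exact absurd h2.symm h3
    · rw [e1, e2] at h2
      simp only [Bool.false_eq_true, if_false, if_true] at h2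
      exact absurd h2 h3
    · rfl
  have hc1 : τ.2.2.2.2 = τ'.2.2.2.2 := by
    have h1 := ol10_mod hz ⟨l + 1, by omega⟩
    have h2 := ol10_mod hz' ⟨l + 1, by omega⟩
    rw [← hzz, h1] at h2
    simp only at h2
    rw [ol10_lc_last hl, ol10_lc_last hl, ← ha, ← hs] at h2
    have h3 := ol10_step hl (ol10_hb_lt (show 0 < l by omega) τ.1 τ.2.1.1 (l - 1))
    cases e1 : τ.2.2.2.2 <;> cases e2 : τ'.2.2.2.2
    · rfl
    · rw [e1, e2] at h2
      simp only [Bool.false_eq_true, if_false, if_true] at h2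
      exact absurd h2.symm h3
    · rw [e1, e2] at h2
      simp only [Bool.false_eq_true, if_false, if_true] at h2
      exact absurd h2 h3
    · rfl
  exact ⟨Prod.ext hs (Prod.ext (Fin.ext ha) (Prod.ext (Fin.ext hplace) (Prod.ext hc0 hc1))), hzz⟩

end

end Pool.Agent.Lib.MP_009d13_co.OL
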