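import Pool.Agent.Lib.MP_009d13_co.OL.Defs

/-!
# OL2

minor_mono: (G.induce (B w)).Connected is monotone in G (SimpleGraph.Connected.mono /
induce_mono). sep_aux: new branch sets B w ∩ A in res G A. Nonempty: if B w meets {u, v} clear,
otherwise B w ⊆ A. Connected: fix w and y ∈ B w ∩ A; by induction on a walk in G.induce (B w) from
x to y show: if x ∈ A then x reaches y in (res G A).induce (B w ∩ A); if x ∉ A then there is z ∈
{u, v}, z ∈ B w, which reaches y there. Step x - x': both in A: edge of res G A. x ∈ A, x' ∉ A: x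
∈ {u,v} by hA, z from the hypothesis, x = z or x z is the edge u v (both in B w ∩ A). x ∉ A, x' ∈
A: by hA (symmetric use) x' ∈ {u,v}: z = x'. Both outside: hypothesis. Adjacent: H.Adj w w' gives
x ∈ B w, y ∈ B w' adjacent. If x, y ∈ A fine. If B w avoids u and v then B w ⊆ A, x ∈ A and x is
not u, v, so y ∈ A by hA; the same for w'. Otherwise both B w and B w' meet {u, v} and, being
disjoint, one contains u and the other v: use the edge u v.
-/

set_option autoImplicit false

namespace Pool.Agent.Lib.MP_009d13_co.OL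

open Finset Classical
open Pool.Agent.Lib.MP_009d13_co.P5 (IsMinor IsPlanar)
open Pool.Agent.Lib.MP_009d13_co.OD (NL pw aj Tk)

noncomputable section

theorem ol2_to {V : Type} (G : SimpleGraph V) (S : Set V) (x y : S)
    (h : (G.induce S).Reachable x y) :
    Relation.ReflTransGen (fun a b => G.Adj a b ∧ a ∈ S ∧ b ∈ S) x.1 y.1 := by
  rw [SimpleGraph.reachable_iff_reflTransGen] at h
  exact Relation.ReflTransGen.lift
    (p := fun a b => G.Adj a b ∧ a ∈ S ∧ b ∈ S) Subtype.val
    (fun a b hab => ⟨hab, a.2, b.2⟩) x y h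

theorem ol2_of {V : Type} (G : SimpleGraph V) (S : Set V) {x : V} (y : S)
    (h : Relation.ReflTransGen (fun a b => G.Adj a b ∧ a ∈ S ∧ b ∈ S) x y.1) :
    ∀ hx : x ∈ S, (G.induce S).Reachable ⟨x, hx⟩ y := by
  induction h using Relation.ReflTransGen.head_induction_on with
  | refl => intro hx; exact SimpleGraph.Reachable.refl _
  | head hab _ ih =>
    intro hx
    have h1 := ih hab.2.2
    have h2 : (G.induce S).Adj ⟨_, hx⟩ ⟨_, hab.2.2⟩ := hab.1
    exact h2.reachable.trans h1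

theorem minor_mono {W V : Type} {H : SimpleGraph W} {G G' : SimpleGraph V} (h : G ≤ G')
    (hm : IsMinor H G) : IsMinor H G' := by
  obtain ⟨B, hc, hd, ha⟩ := hm
  refine ⟨B, fun w => (hc w).mono (fun x y hxy => h hxy), hd, fun w w' hw => ?_⟩
  obtain ⟨x, hx, y, hy, hxy⟩ := ha w w' hw
  exact ⟨x, hx, y, hy, h hxy⟩

theorem ol2_walk {V : Type} (G : SimpleGraph V) (A B : Set V) (u v : V)
    (hu : u ∈ A) (hv : v ∈ A) (huv : G.Adj u v)
    (hA : ∀ x ∈ A, ∀ y, y ∉ A → G.Adj x y → x = u ∨ x = v) {x y : V} (hy : y ∈ B ∩ A)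
    (h : Relation.ReflTransGen (fun a b => G.Adj a b ∧ a ∈ B ∧ b ∈ B) x y) :
    (x ∈ A → Relation.ReflTransGen
      (fun a b => (res G A).Adj a b ∧ a ∈ B ∩ A ∧ b ∈ B ∩ A) x y) ∧
    (x ∉ A → ∃ z, (z = u ∨ z = v) ∧ z ∈ B ∧ Relation.ReflTransGen
      (fun a b => (res G A).Adj a b ∧ a ∈ B ∩ A ∧ b ∈ B ∩ A) z y) := by
  induction h using Relation.ReflTransGen.head_induction_on with
  | refl => exact ⟨fun _ => Relation.ReflTransGen.refl, fun h => absurd hy.2 h⟩
  | @head a c hab _ ih =>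
    obtain ⟨hac, haB, hcB⟩ := hab
    refine ⟨fun haA => ?_, fun haA => ?_⟩
    · by_cases hcA : c ∈ A
      · exact Relation.ReflTransGen.head ⟨⟨hac, haA, hcA⟩, ⟨haB, haA⟩, ⟨hcB, hcA⟩⟩ (ih.1 hcA)
      · obtain ⟨z, hz, hzB, hzr⟩ := ih.2 hcA
        have ha := hA a haA c hcA hac
        have hzA : z ∈ A := by
          rcases hz with rfl | rfl
          · exact hu
          · exact hv
        by_cases haz : a = z
        · rw [haz]
          exact hzr
        · have hadj : G.Adj a z := by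
            rcases ha with rfl | rfl <;> rcases hz with rfl | rfl
            · exact absurd rfl haz
            · exact huv
            · exact huv.symm
            · exact absurd rfl haz
          exact Relation.ReflTransGen.head ⟨⟨hadj, haA, hzA⟩, ⟨haB, haA⟩, ⟨hzB, hzA⟩⟩ hzr
    · by_cases hcA : c ∈ A
      · exact ⟨c, hA c hcA a haA hac.symm, hcB, ih.1 hcA⟩
      · exact ih.2 hcA

theorem sep_aux {W V : Type} {H : SimpleGraph W} (G : SimpleGraph V) (A : Set V) (u v : V)
    (hu : u ∈ A) (hv : v ∈ A) (huv : G.Adj u v)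
    (hA : ∀ x ∈ A, ∀ y, y ∉ A → G.Adj x y → x = u ∨ x = v) (B : W → Set V)
    (hc : ∀ w, (G.induce (B w)).Connected) (hd : ∀ w w', w ≠ w' → Disjoint (B w) (B w'))
    (hadj : ∀ w w', H.Adj w w' → ∃ x ∈ B w, ∃ y ∈ B w', G.Adj x y)
    (hin : ∀ w, u ∉ B w → v ∉ B w → B w ⊆ A) : IsMinor H (res G A) := by
  refine ⟨fun w => B w ∩ A, fun w => ?_, fun w w' hww => ?_, fun w w' hww => ?_⟩
  · have hne : Nonempty ↥(B w ∩ A) := by
      by_cases h1 : u ∈ B w
      · exact ⟨⟨u, h1, hu⟩⟩
      · by_cases h2 : v ∈ B w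
        · exact ⟨⟨v, h2, hv⟩⟩
        · obtain ⟨x⟩ := (hc w).nonempty
          exact ⟨⟨x.1, x.2, hin w h1 h2 x.2⟩⟩
    refine { preconnected := ?_, nonempty := hne }
    intro x y
    have h1 := (hc w).preconnected ⟨x.1, x.2.1⟩ ⟨y.1, y.2.1⟩
    have h2 := ol2_to G (B w) _ _ h1
    have h3 := (ol2_walk G A (B w) u v hu hv huv hA y.2 h2).1 x.2.2
    exact ol2_of (res G A) (B w ∩ A) y h3 x.2
  · exact (hd w w' hww).mono Set.inter_subset_left Set.inter_subset_left
  · obtain ⟨x, hx, y, hy, hxy⟩ := hadj w w' hww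
    by_cases h1 : x ∈ A ∧ y ∈ A
    · exact ⟨x, ⟨hx, h1.1⟩, y, ⟨hy, h1.2⟩, hxy, h1.1, h1.2⟩
    · have hm : ∀ a, a ∈ B w → a ∈ B w' → False := fun a ha ha' =>
        (Set.disjoint_left.1 (hd w w' hww.ne)) ha ha'
      have m1 : u ∈ B w ∨ v ∈ B w := by
        by_contra hcon
        push Not at hcon
        have hxA := hin w hcon.1 hcon.2 hx
        have hyA : y ∉ A := fun h => h1 ⟨hxA, h⟩
        rcases hA x hxA y hyA hxy with rfl | rfl
        · exact hcon.1 hx
        · exact hcon.2 hx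
      have m2 : u ∈ B w' ∨ v ∈ B w' := by
        by_contra hcon
        push Not at hcon
        have hyA := hin w' hcon.1 hcon.2 hy
        have hxA : x ∉ A := fun h => h1 ⟨h, hyA⟩
        rcases hA y hyA x hxA hxy.symm with rfl | rfl
        · exact hcon.1 hy
        · exact hcon.2 hy
      rcases m1 with a | a <;> rcases m2 with b | b
      · exact (hm u a b).elim
      · exact ⟨u, ⟨a, hu⟩, v, ⟨b, hv⟩, huv, hu, hv⟩
      · exact ⟨v, ⟨a, hv⟩, u, ⟨b, hu⟩, huv.symm, hv, hu⟩
      · exact (hm v a b).elim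

end

end Pool.Agent.Lib.MP_009d13_co.OL
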