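import Pool.Agent.Lib.MP_009d13_co.OL.Defs
import Pool.Agent.Lib.MP_009d13_co.OL.OL2

/-!
# OL3

sep: from the minor take B. P w := u ∉ B w ∧ v ∉ B w; at most two w fail P (disjointness: the sets
that contain u or v). A set with P is connected and avoids u, v, so it lies in A or in Aᶜ (no edge
between A minus {u,v} and Aᶜ by hA). If H.Adj w w' and both have P they are on the same side. By
Conn3 all sets with P are on the same side: if it is A use sep_aux with A; if it is Aᶜ use sep_aux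
with Aᶜ ∪ {u, v} (its hypothesis hA: x ∈ Aᶜ ∪ {u,v}, y ∉ it, i.e. y ∈ A, y ≠ u, v, adjacent: if x
∈ Aᶜ then hA for (y, x) gives y ∈ {u,v}: contradiction, so x ∈ {u,v}). conn3_K5: three of the five
vertices satisfy P; any two different ones are adjacent. conn3_K33: each side Fin 3 keeps a vertex
with P (at most two fail; if both fail on one side the other keeps all three, one remains here);
two vertices on different sides are adjacent, two on the same side are joined through a vertex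
with P of the other side.
-/

set_option autoImplicit false

namespace Pool.Agent.Lib.MP_009d13_co.OL

open Finset Classical
open Pool.Agent.Lib.MP_009d13_co.P5 (IsMinor IsPlanar)
open Pool.Agent.Lib.MP_009d13_co.OD (NL pw aj Tk)

noncomputable section

theorem ol3_two {W V : Type} [Nonempty W] (B : W → Set V)
    (hd : ∀ w w', w ≠ w' → Disjoint (B w) (B w')) (u v : V) :
    ∃ w1 w2, ∀ w, ¬ (u ∉ B w ∧ v ∉ B w) → w = w1 ∨ w = w2 := by
  have key : ∀ x : V, ∃ w1, ∀ w, x ∈ B w → w = w1 := by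
    intro x
    by_cases h : ∃ w, x ∈ B w
    · obtain ⟨w1, h1⟩ := h
      refine ⟨w1, fun w hw => ?_⟩
      by_contra hne
      exact Set.disjoint_left.1 (hd w w1 hne) hw h1
    · exact ⟨Classical.arbitrary W, fun w hw => absurd ⟨w, hw⟩ h⟩
  obtain ⟨w1, h1⟩ := key u
  obtain ⟨w2, h2⟩ := key v
  refine ⟨w1, w2, fun w hw => ?_⟩
  by_cases h : u ∈ B w
  · exact Or.inl (h1 w h)
  · refine Or.inr (h2 w ?_)
    by_contra h'
    exact hw ⟨h, h'⟩

theorem ol3_side {V : Type} {G : SimpleGraph V} {A : Set V} {u v : V}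
    (hA : ∀ x ∈ A, ∀ y, y ∉ A → G.Adj x y → x = u ∨ x = v) {x y : V} (hxy : G.Adj x y)
    (hxu : x ≠ u) (hxv : x ≠ v) (hyu : y ≠ u) (hyv : y ≠ v) : x ∈ A ↔ y ∈ A := by
  constructor
  · intro hx
    by_contra hy
    rcases hA x hx y hy hxy with h | h
    · exact hxu h
    · exact hxv h
  · intro hy
    by_contra hx
    rcases hA y hy x hx hxy.symm with h | h
    · exact hyu h
    · exact hyv h

theorem ol3_conn {V : Type} {G : SimpleGraph V} {A B : Set V} {u v : V}
    (hA : ∀ x ∈ A, ∀ y, y ∉ A → G.Adj x y → x = u ∨ x = v) (hu : u ∉ B) (hv : v ∉ B)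
    (hc : (G.induce B).Connected) {x y : V} (hx : x ∈ B) (hy : y ∈ B) : x ∈ A ↔ y ∈ A := by
  have h1 := ol2_to G B _ _ (hc.preconnected ⟨x, hx⟩ ⟨y, hy⟩)
  simp only at h1
  induction h1 with
  | refl => exact Iff.rfl
  | tail _ hbc ih =>
    refine (ih hbc.2.1).trans (ol3_side hA hbc.1 ?_ ?_ ?_ ?_)
    · rintro rfl; exact hu hbc.2.1
    · rintro rfl; exact hv hbc.2.1
    · rintro rfl; exact hu hbc.2.2
    · rintro rfl; exact hv hbc.2.2

theorem sep {W V : Type} {H : SimpleGraph W} (hH : Conn3 H) (G : SimpleGraph V) (A : Set V)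
    (u v : V) (hu : u ∈ A) (hv : v ∈ A) (huv : G.Adj u v)
    (hA : ∀ x ∈ A, ∀ y, y ∉ A → G.Adj x y → x = u ∨ x = v) (hm : IsMinor H G) :
    IsMinor H (res G A) ∨ IsMinor H (res G (Aᶜ ∪ {u, v})) := by
  obtain ⟨B, hc, hd, hadj⟩ := hm
  rcases isEmpty_or_nonempty W with hW | hW
  · left
    exact ⟨B, fun w => (hW.false w).elim, fun w => (hW.false w).elim,
      fun w => (hW.false w).elim⟩
  obtain ⟨⟨w0, hw0⟩, hconn⟩ := hH (fun w => u ∉ B w ∧ v ∉ B w) (ol3_two B hd u v)
  have hne : ∀ w, ∃ x, x ∈ B w := fun w => by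
    obtain ⟨x⟩ := (hc w).nonempty
    exact ⟨x.1, x.2⟩
  obtain ⟨x0, hx0⟩ := hne w0
  have hside : ∀ w, u ∉ B w → v ∉ B w → ∀ x ∈ B w, (x0 ∈ A ↔ x ∈ A) := by
    intro w h1 h2
    have h3 := hconn w0 w hw0 ⟨h1, h2⟩
    clear h1 h2
    induction h3 with
    | refl => exact fun x hx => ol3_conn hA hw0.1 hw0.2 (hc w0) hx0 hx
    | @tail b c _ hbc ih =>
      intro x hx
      obtain ⟨y, hy, z, hz, hyz⟩ := hadj b c hbc.1
      have e1 := ih y hy
      have e2 : y ∈ A ↔ z ∈ A := ol3_side hA hyz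
        (by rintro rfl; exact hbc.2.1.1 hy) (by rintro rfl; exact hbc.2.1.2 hy)
        (by rintro rfl; exact hbc.2.2.1 hz) (by rintro rfl; exact hbc.2.2.2 hz)
      exact e1.trans (e2.trans (ol3_conn hA hbc.2.2.1 hbc.2.2.2 (hc c) hz hx))
  by_cases hx0A : x0 ∈ A
  · left
    exact sep_aux G A u v hu hv huv hA B hc hd hadj
      (fun w h1 h2 x hx => (hside w h1 h2 x hx).1 hx0A)
  · right
    refine sep_aux G (Aᶜ ∪ {u, v}) u v (Or.inr (Or.inl rfl)) (Or.inr (Or.inr rfl)) huv ?_ B hc hd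
      hadj (fun w h1 h2 x hx => Or.inl (fun h => hx0A ((hside w h1 h2 x hx).2 h)))
    intro x hx y hy hxy
    have hyA : y ∈ A := by
      by_contra h
      exact hy (Or.inl h)
    have hyu : y ≠ u := fun h => hy (Or.inr (Or.inl h))
    have hyv : y ≠ v := fun h => hy (Or.inr (Or.inr h))
    rcases hx with hx | hx | hx
    · rcases hA y hyA x hx hxy.symm with h | h
      · exact absurd h hyu
      · exact absurd h hyv
    · exact Or.inl hx
    · exact Or.inr hx

theorem ol3_pig {W : Type} (P : W → Prop) (h : ∃ w1 w2, ∀ w, ¬ P w → w = w1 ∨ w = w2)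
    (f : Fin 3 → W) (hf : Function.Injective f) : ∃ i, P (f i) := by
  obtain ⟨w1, w2, h⟩ := h
  by_contra hcon
  push Not at hcon
  have h0 := h _ (hcon 0)
  have h1 := h _ (hcon 1)
  have h2 := h _ (hcon 2)
  have n01 : f 0 ≠ f 1 := fun h => absurd (hf h) (by decide)
  have n02 : f 0 ≠ f 2 := fun h => absurd (hf h) (by decide)
  have n12 : f 1 ≠ f 2 := fun h => absurd (hf h) (by decide)
  rcases h0 with a | a <;> rcases h1 with b | b <;> rcases h2 with c | c
  · exact n01 (a.trans b.symm)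
  · exact n01 (a.trans b.symm)
  · exact n02 (a.trans c.symm)
  · exact n12 (b.trans c.symm)
  · exact n12 (b.trans c.symm)
  · exact n02 (a.trans c.symm)
  · exact n01 (a.trans b.symm)
  · exact n01 (a.trans b.symm)

theorem conn3_K5 : Conn3 (⊤ : SimpleGraph (Fin 5)) := by
  intro P h
  refine ⟨?_, fun w w' hw hw' => ?_⟩
  · obtain ⟨i, hi⟩ := ol3_pig P h (Fin.castLE (by norm_num)) (Fin.castLE_injective _)
    exact ⟨_, hi⟩
  · by_cases hne : w = w'
    · rw [hne]
    · exact Relation.ReflTransGen.single ⟨hne, hw, hw'⟩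

theorem conn3_K33 : Conn3 (completeBipartiteGraph (Fin 3) (Fin 3)) := by
  intro P h
  obtain ⟨i, hi⟩ := ol3_pig P h Sum.inl Sum.inl_injective
  obtain ⟨j, hj⟩ := ol3_pig P h Sum.inr Sum.inr_injective
  have e1 : ∀ a b : Fin 3, (completeBipartiteGraph (Fin 3) (Fin 3)).Adj (Sum.inl a) (Sum.inr b) :=
    fun a b => by simp [completeBipartiteGraph]
  refine ⟨⟨_, hi⟩, fun w w' hw hw' => ?_⟩
  rcases w with a | a <;> rcases w' with b | b
  · exact (Relation.ReflTransGen.single ⟨e1 a j, hw, hj⟩).tail ⟨(e1 b j).symm, hj, hw'⟩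
  · exact Relation.ReflTransGen.single ⟨e1 a b, hw, hw'⟩
  · exact Relation.ReflTransGen.single ⟨(e1 b a).symm, hw, hw'⟩
  · exact (Relation.ReflTransGen.single ⟨(e1 i a).symm, hw, hi⟩).tail ⟨e1 i b, hi, hw'⟩

end

end Pool.Agent.Lib.MP_009d13_co.OL
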