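import Pool.Agent.Lib.MP_009d13_co.OL.Defs
import Pool.Agent.Lib.MP_009d13_co.OL.OL1
import Pool.Agent.Lib.MP_009d13_co.OL.OL3

/-!
# OL4

ring l n ≤ tj l n l. For H = K_5, K_{3,3} (conn3_K5, conn3_K33) show by induction on j ≤ l: no
minor H in tj l n j. j = 0: hub cycle only: fan_minor with a = b = the vertex 0 and r v = v.1
((x+1) % l = y with x, y ≠ 0 gives y = x + 1). Step: G = tj l n (j+1), A = {v | l ≤ v.1 ∧ v.1 % l
= j} ∪ {j, (j+1) % l}, u = j, v = (j+1) % l (vertices of Fin n as l < n), sep; res G A: fan_minor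
with a = u, b = v, r w = if w.1 % l = j then w.1 / l else n + w.1; res G (Aᶜ ∪ {u,v}) ≤ tj l n j
(minor_mono): an edge of tj (j+1) that is not in tj j touches a low vertex of class j.
-/

set_option autoImplicit false

namespace Pool.Agent.Lib.MP_009d13_co.OL

open Finset Classical
open Pool.Agent.Lib.MP_009d13_co.P5 (IsMinor IsPlanar)
open Pool.Agent.Lib.MP_009d13_co.OD (NL pw aj Tk)

noncomputable section

/-- The relation of `tj`. -/
def ol4R (l j x y : ℕ) : Prop :=
  (x < l ∧ y < l ∧ (x + 1) % l = y) ∨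
    (x < l ∧ l ≤ y ∧ y % l < j ∧ (y % l = x ∨ (y + 1) % l = x)) ∨
    (l ≤ x ∧ x % l < j ∧ y = x + l)

theorem ol4_adj {l n j : ℕ} {x y : Fin n} :
    (tj l n j).Adj x y ↔ x ≠ y ∧ (ol4R l j x.1 y.1 ∨ ol4R l j y.1 x.1) := by
  unfold tj
  rw [SimpleGraph.fromRel_adj]
  rfl

theorem ol4_zero {l n : ℕ} (hn : 0 < n) : IsPlanar (tj l n 0) := by
  refine fan_minor _ ⟨0, hn⟩ ⟨0, hn⟩ (fun v => v.1) (fun x y _ _ _ _ h => Fin.ext h)
    (fun x y hx _ hy _ h => ?_)
  have hx0 : x.1 ≠ 0 := fun h => hx (Fin.ext h)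
  have hy0 : y.1 ≠ 0 := fun h => hy (Fin.ext h)
  rw [ol4_adj] at h
  have key : ∀ a b : ℕ, b ≠ 0 → ol4R l 0 a b → b = a + 1 := by
    intro a b hb hab
    rcases hab with h1 | h1 | h1
    · obtain ⟨h2, -, h4⟩ := h1
      rcases Nat.lt_or_ge (a + 1) l with h5 | h5
      · rw [Nat.mod_eq_of_lt h5] at h4
        exact h4.symm
      · exfalso
        have h6 : a + 1 = l := by omega
        rw [h6, Nat.mod_self] at h4
        exact hb h4.symm
    · omega
    · omega
  rcases h.2 with h1 | h1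
  · exact Or.inl (key _ _ hy0 h1)
  · exact Or.inr (key _ _ hx0 h1)

theorem ol4_mod {l x j : ℕ} (h : x % l = j) : (x + 1) % l = (j + 1) % l := by
  rw [← h, Nat.mod_add_mod]

theorem ol4_step {W : Type} {H : SimpleGraph W} (hH : Conn3 H) {l n j : ℕ} (hl : 3 ≤ l)
    (hn : l < n) (hp : ∀ G : SimpleGraph (Fin n), IsPlanar G → ¬ IsMinor H G) (hj : j < l)
    (ih : ¬ IsMinor H (tj l n j)) : ¬ IsMinor H (tj l n (j + 1)) := by
  intro hm
  have hl0 : 0 < l := by omega
  have hm1 : (j + 1) % l < l := Nat.mod_lt _ hl0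
  obtain ⟨u, hu⟩ : ∃ u : Fin n, u.1 = j := ⟨⟨j, by omega⟩, rfl⟩
  obtain ⟨v, hv⟩ : ∃ v : Fin n, v.1 = (j + 1) % l := ⟨⟨(j + 1) % l, by omega⟩, rfl⟩
  obtain ⟨A, hA⟩ : ∃ A : Set (Fin n), ∀ x, x ∈ A ↔ (l ≤ x.1 ∧ x.1 % l = j) ∨ x = u ∨ x = v :=
    ⟨{x | (l ≤ x.1 ∧ x.1 % l = j) ∨ x = u ∨ x = v}, fun _ => Iff.rfl⟩
  have huA : u ∈ A := (hA u).2 (Or.inr (Or.inl rfl))
  have hvA : v ∈ A := (hA v).2 (Or.inr (Or.inr rfl))
  have huv : (tj l n (j + 1)).Adj u v := by
    rw [ol4_adj]
    refine ⟨fun h => ?_, Or.inl (Or.inl ⟨by omega, by omega, by rw [hu, hv]⟩)⟩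
    have h1 : j = (j + 1) % l := by
      have h0 := congrArg Fin.val h
      rwa [hu, hv] at h0
    rcases Nat.lt_or_ge (j + 1) l with h5 | h5
    · rw [Nat.mod_eq_of_lt h5] at h1
      omega
    · have h6 : j + 1 = l := by omega
      rw [h6, Nat.mod_self] at h1
      omega
  have hsepA : ∀ x ∈ A, ∀ y, y ∉ A → (tj l n (j + 1)).Adj x y → x = u ∨ x = v := by
    intro x hx y hy hxy
    rcases (hA x).1 hx with hx1 | hx1
    · exfalso
      obtain ⟨hxl, hxj⟩ := hx1
      rw [ol4_adj] at hxy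
      have hy' : ¬((l ≤ y.1 ∧ y.1 % l = j) ∨ y = u ∨ y = v) := fun h => hy ((hA y).2 h)
      rcases hxy.2 with h | h
      · rcases h with h | h | h
        · omega
        · omega
        · refine hy' (Or.inl ⟨by omega, ?_⟩)
          rw [h.2.2, Nat.add_mod_right]
          exact hxj
      · rcases h with h | h | h
        · omega
        · rcases h.2.2.2 with h2 | h2
          · exact hy' (Or.inr (Or.inl (Fin.ext (by rw [hu, ← h2, hxj]))))
          · exact hy' (Or.inr (Or.inr (Fin.ext (by rw [hv, ← h2, ol4_mod hxj]))))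
        · refine hy' (Or.inl ⟨h.1, ?_⟩)
          have h3 := h.2.2
          rw [h3, Nat.add_mod_right] at hxj
          exact hxj
    · exact hx1
  have hnot : ∀ x : Fin n, x ∈ Aᶜ ∪ {u, v} → ¬(l ≤ x.1 ∧ x.1 % l = j) := by
    rintro x (hx | hx) h
    · exact hx ((hA x).2 (Or.inl h))
    · rcases hx with hx | hx
      · have := congrArg Fin.val hx
        omega
      · have h2 : x = v := hx
        have := congrArg Fin.val h2
        omega
  rcases sep hH _ A u v huA hvA huv hsepA hm with h | h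
  · refine hp _ ?_ h
    refine fan_minor _ u v (fun w => if w.1 % l = j then w.1 / l else n + w.1) ?_ ?_
    · intro x y _ _ _ _ hxy
      have h1 : x.1 / l ≤ x.1 := Nat.div_le_self _ _
      have h2 : y.1 / l ≤ y.1 := Nat.div_le_self _ _
      have h3 := x.2
      have h4 := y.2
      by_cases hx : x.1 % l = j <;> by_cases hy : y.1 % l = j
      · simp only [if_pos hx, if_pos hy] at hxy
        apply Fin.ext
        rw [← Nat.div_add_mod x.1 l, ← Nat.div_add_mod y.1 l, hxy, hx, hy]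
      · simp only [if_pos hx, if_neg hy] at hxy
        omega
      · simp only [if_neg hx, if_pos hy] at hxy
        omega
      · simp only [if_neg hx, if_neg hy] at hxy
        exact Fin.ext (by omega)
    · rintro x y hxu hxv hyu hyv ⟨hxy, hxA, hyA⟩
      have low : ∀ w : Fin n, w ≠ u → w ≠ v → w ∈ A → l ≤ w.1 ∧ w.1 % l = j := by
        intro w h1 h2 h3
        rcases (hA w).1 h3 with h4 | h4 | h4
        · exact h4
        · exact absurd h4 h1
        · exact absurd h4 h2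
      obtain ⟨x1, x2⟩ := low x hxu hxv hxA
      obtain ⟨y1, y2⟩ := low y hyu hyv hyA
      simp only [if_pos x2, if_pos y2]
      rw [ol4_adj] at hxy
      rcases hxy.2 with h | h
      · rcases h with h | h | h
        · omega
        · omega
        · left
          rw [h.2.2, Nat.add_div_right _ hl0]
      · rcases h with h | h | h
        · omega
        · omega
        · right
          rw [h.2.2, Nat.add_div_right _ hl0]
  · refine ih (minor_mono ?_ h)
    rintro x y ⟨hxy, hx, hy⟩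
    have hx' := hnot x hx
    have hy' := hnot y hy
    rw [ol4_adj] at hxy ⊢
    have key : ∀ a b : ℕ, ¬(l ≤ a ∧ a % l = j) → ¬(l ≤ b ∧ b % l = j) → ol4R l (j + 1) a b →
        ol4R l j a b := by
      intro a b ha hb h
      rcases h with h | h | h
      · exact Or.inl h
      · refine Or.inr (Or.inl ⟨h.1, h.2.1, ?_, h.2.2.2⟩)
        have := h.2.2.1
        have : b % l ≠ j := fun h5 => hb ⟨h.2.1, h5⟩
        omega
      · refine Or.inr (Or.inr ⟨h.1, ?_, h.2.2⟩)
        have := h.2.1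
        have : a % l ≠ j := fun h5 => ha ⟨h.1, h5⟩
        omega
    exact ⟨hxy.1, hxy.2.imp (key _ _ hx' hy') (key _ _ hy' hx')⟩

theorem ol4_all {W : Type} {H : SimpleGraph W} (hH : Conn3 H) {l n : ℕ} (hl : 3 ≤ l)
    (hn : l < n) (hp : ∀ G : SimpleGraph (Fin n), IsPlanar G → ¬ IsMinor H G) (j : ℕ)
    (hj : j ≤ l) : ¬ IsMinor H (tj l n j) := by
  induction j with
  | zero => exact hp _ (ol4_zero (by omega))
  | succ j ih => exact ol4_step hH hl hn hp (by omega) (ih (by omega))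

theorem ring_planar {l n : ℕ} (hl : 3 ≤ l) (hn : l < n) : IsPlanar (ring l n) := by
  have hle : ring l n ≤ tj l n l := by
    intro x y h
    unfold ring at h
    rw [SimpleGraph.fromRel_adj] at h
    rw [ol4_adj]
    have hm : ∀ a : ℕ, a % l < l := fun a => Nat.mod_lt a (by omega)
    have key : ∀ a b : ℕ, ((a < l ∧ l ≤ b ∧ (b % l = a ∨ (b + 1) % l = a)) ∨
        (l ≤ a ∧ b = a + l)) → ol4R l l a b := by
      intro a b h
      rcases h with h | h
      · exact Or.inr (Or.inl ⟨h.1, h.2.1, hm b, h.2.2⟩)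
      · exact Or.inr (Or.inr ⟨h.1, hm a, h.2⟩)
    exact ⟨h.1, h.2.imp (key _ _) (key _ _)⟩
  exact ⟨fun h => ol4_all conn3_K5 hl hn (fun _ hG => hG.1) l le_rfl (minor_mono hle h),
    fun h => ol4_all conn3_K33 hl hn (fun _ hG => hG.2) l le_rfl (minor_mono hle h)⟩

end

end Pool.Agent.Lib.MP_009d13_co.OL
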