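import Pool.Agent.Lib.MP_009d13_co.OL.Defs
import Pool.Agent.Lib.MP_009d13_co.OD.CPY

/-!
# OL5

The converse of OD.CPY (copy_le). P5/COPY2.lean does it for 6 vertices: every list L ∈ NL ∅ k with
pw (aj G) L = 1 (nodup, consecutive entries adjacent) gives a copy of the path (an injective hom,
its image subgraph), and every subgraph isomorphic to the path comes from at most two such lists
(an automorphism of the path is the identity or the reversal). Tk G k = number of these lists (pw
is 0 or 1).
-/

set_option autoImplicit false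

namespace Pool.Agent.Lib.MP_009d13_co.OL

open Finset Classical
open Pool.Agent.Lib.MP_009d13_co.P5 (IsMinor IsPlanar)
open Pool.Agent.Lib.MP_009d13_co.OD (NL pw aj Tk)

noncomputable section

theorem ol5_pw {V : Type} (G : SimpleGraph V) : ∀ L : List V, pw (aj G) L ≠ 0 →
    pw (aj G) L = 1 ∧ ∀ (i : ℕ) (hi : i + 1 < L.length), G.Adj (L[i]'(by omega)) (L[i + 1]'hi)
  | [], _ => ⟨rfl, fun i hi => by simp at hi⟩
  | [_], _ => ⟨rfl, fun i hi => by simp at hi⟩
  | a :: b :: t, h => by
    have h1 : aj G a b * pw (aj G) (b :: t) ≠ 0 := h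
    have hab : G.Adj a b := by
      by_contra hn
      apply h1
      unfold aj
      rw [if_neg hn, zero_mul]
    obtain ⟨e1, e2⟩ := ol5_pw G (b :: t) (right_ne_zero_of_mul h1)
    refine ⟨?_, ?_⟩
    · change aj G a b * pw (aj G) (b :: t) = 1
      rw [e1]
      unfold aj
      rw [if_pos hab, mul_one]
    · intro i hi
      cases i with
      | zero => exact hab
      | succ i => exact e2 i (by simpa using hi)

/-- an injective map of a path into a path of the same length is the identity or the reversal -/
theorem ol5_eq_or {k : ℕ} (hk : 2 ≤ k) {s : Fin k → ℕ} (hlt : ∀ i, s i < k)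
    (hne : ∀ i j, i ≠ j → s i ≠ s j)
    (hadj : ∀ i j : Fin k, i.1 + 1 = j.1 → s i + 1 = s j ∨ s j + 1 = s i) :
    (∀ i, s i = i.1) ∨ ∀ i, s i = k - 1 - i.1 := by
  rcases hadj ⟨0, by omega⟩ ⟨1, by omega⟩ rfl with h | h
  · left
    have key : ∀ (i : ℕ) (hi : i + 1 < k), s ⟨i, by omega⟩ + 1 = s ⟨i + 1, hi⟩ := by
      intro i
      induction i with
      | zero => intro hi; exact h
      | succ i ih =>
        intro hi
        have h1 := ih (by omega)
        rcases hadj ⟨i + 1, by omega⟩ ⟨i + 1 + 1, hi⟩ rfl with h2 | h2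
        · exact h2
        · exfalso
          have h3 : s ⟨i, by omega⟩ = s ⟨i + 1 + 1, hi⟩ := by omega
          exact hne _ _ (by
            intro h4
            have h5 : i = i + 1 + 1 := congrArg Fin.val h4
            omega) h3
    have key2 : ∀ (i : ℕ) (hi : i < k), s ⟨i, hi⟩ = s ⟨0, by omega⟩ + i := by
      intro i
      induction i with
      | zero => intro hi; rfl
      | succ i ih =>
        intro hi
        have h1 := ih (by omega)
        have h2 := key i hi
        omega
    have h0 : s ⟨0, by omega⟩ = 0 := by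
      have h1 := key2 (k - 1) (by omega)
      have h2 := hlt ⟨k - 1, by omega⟩
      omega
    intro i
    have := key2 i.1 i.2
    rw [h0, zero_add] at this
    exact this
  · right
    have key : ∀ (i : ℕ) (hi : i + 1 < k), s ⟨i + 1, hi⟩ + 1 = s ⟨i, by omega⟩ := by
      intro i
      induction i with
      | zero => intro hi; exact h
      | succ i ih =>
        intro hi
        have h1 := ih (by omega)
        rcases hadj ⟨i + 1, by omega⟩ ⟨i + 1 + 1, hi⟩ rfl with h2 | h2
        · exfalso
          have h3 : s ⟨i, by omega⟩ = s ⟨i + 1 + 1, hi⟩ := by omega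
          exact hne _ _ (by
            intro h4
            have h5 : i = i + 1 + 1 := congrArg Fin.val h4
            omega) h3
        · exact h2
    have key2 : ∀ (i : ℕ) (hi : i < k), s ⟨i, hi⟩ + i = s ⟨0, by omega⟩ := by
      intro i
      induction i with
      | zero => intro hi; rfl
      | succ i ih =>
        intro hi
        have h1 := ih (by omega)
        have h2 := key i hi
        omega
    have h0 : s ⟨0, by omega⟩ = k - 1 := by
      have h1 := key2 (k - 1) (by omega)
      have h2 := hlt ⟨0, by omega⟩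
      omega
    intro i
    have h1 := key2 i.1 i.2
    rw [h0] at h1
    have h2 := i.2
    have h3 : s i = s ⟨i.1, i.2⟩ := rfl
    omega

theorem ol5_copy_eq_or {V : Type} {G : SimpleGraph V} {k : ℕ} (hk : 2 ≤ k)
    (f g : SimpleGraph.Copy (SimpleGraph.pathGraph k) G) (h : g.toSubgraph = f.toSubgraph) :
    g = f ∨ g = f.comp (OD.cpy_rev k) := by
  have hv : ∀ i, ∃ j, f j = g i := by
    intro i
    have h1 : g i ∈ g.toSubgraph.verts := ⟨i, trivial, rfl⟩
    rw [h] at h1
    obtain ⟨j, -, hj⟩ := h1
    exact ⟨j, hj⟩
  choose σ hσ using hv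
  have hadj : ∀ i j : Fin k, i.1 + 1 = j.1 → (σ i).1 + 1 = (σ j).1 ∨ (σ j).1 + 1 = (σ i).1 := by
    intro i j hij
    have h1 : g.toSubgraph.Adj (g i) (g j) :=
      ⟨i, j, SimpleGraph.pathGraph_adj.2 (Or.inl hij), rfl, rfl⟩
    rw [h] at h1
    obtain ⟨a, b, hab, ha, hb⟩ := h1
    have ha' : a = σ i := f.injective (ha.trans (hσ i).symm)
    have hb' : b = σ j := f.injective (hb.trans (hσ j).symm)
    subst ha' hb'
    exact SimpleGraph.pathGraph_adj.1 hab
  have hne : ∀ i j : Fin k, i ≠ j → (σ i).1 ≠ (σ j).1 := by
    intro i j hij h1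
    apply hij
    apply g.injective
    change g i = g j
    rw [← hσ i, ← hσ j, Fin.ext h1]
  rcases ol5_eq_or hk (s := fun i => (σ i).1) (fun i => (σ i).2) hne hadj with h1 | h1
  · left
    ext i
    rw [← hσ i]
    exact congrArg f (Fin.ext (h1 i))
  · right
    ext i
    change g i = f (Fin.rev i)
    rw [← hσ i]
    refine congrArg f (Fin.ext ?_)
    have h2 := h1 i
    have := i.2
    rw [Fin.val_rev]
    omega

theorem le_copy {V : Type} [Fintype V] (G : SimpleGraph V) (k : ℕ) (hk : 2 ≤ k) :
    Tk G k ≤ 2 * (G.copyCount (SimpleGraph.pathGraph k) : ℝ) := by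
  have hB : (Finset.univ : Finset (SimpleGraph.Copy (SimpleGraph.pathGraph k) G)).card ≤
      2 * G.copyCount (SimpleGraph.pathGraph k) := by
    rw [SimpleGraph.copyCount_eq_card_image_copyToSubgraph]
    refine Finset.card_le_mul_card_image _ 2 ?_
    intro G' hG'
    rw [Finset.mem_image] at hG'
    obtain ⟨f, -, rfl⟩ := hG'
    refine (Finset.card_le_card (t := {f, f.comp (OD.cpy_rev k)}) ?_).trans Finset.card_le_two
    intro g hg
    rw [Finset.mem_filter] at hg
    rw [Finset.mem_insert, Finset.mem_singleton]
    exact ol5_copy_eq_or hk f g hg.2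
  have hA : Tk G k ≤
      ((Finset.univ : Finset (SimpleGraph.Copy (SimpleGraph.pathGraph k) G)).card : ℝ) := by
    have hsub : (NL (∅ : Finset V) k).filter (fun L => pw (aj G) L ≠ 0) ⊆
        (Finset.univ : Finset (SimpleGraph.Copy (SimpleGraph.pathGraph k) G)).image
          (fun f => List.ofFn (fun i : Fin k => f i)) := by
      intro L hL
      rw [Finset.mem_filter, OD.mem_NL] at hL
      obtain ⟨⟨hlen, hnd, -⟩, hpw⟩ := hL
      obtain ⟨-, hadj⟩ := ol5_pw G L hpw
      let φ : Fin k → V := fun i => L[i.1]'(by rw [hlen]; exact i.2)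
      have hφadj : ∀ i j : Fin k, i.1 + 1 = j.1 → G.Adj (φ i) (φ j) := by
        intro i j hij
        have h1 := hadj i.1 (by rw [hlen, hij]; exact j.2)
        have h2 : φ j = L[i.1 + 1]'(by rw [hlen, hij]; exact j.2) := by
          change L[j.1]'_ = _
          simp only [hij]
        rw [h2]
        exact h1
      have hφinj : Function.Injective φ := by
        intro i j hij
        have := (List.Nodup.getElem_inj_iff hnd).1 hij
        exact Fin.ext this
      let f : SimpleGraph.Copy (SimpleGraph.pathGraph k) G :=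
        SimpleGraph.Hom.toCopy (⟨φ, by
          intro i j hij
          rw [SimpleGraph.pathGraph_adj] at hij
          rcases hij with hij | hij
          · exact hφadj i j hij
          · exact (hφadj j i hij).symm⟩ : SimpleGraph.pathGraph k →g G) hφinj
      rw [Finset.mem_image]
      refine ⟨f, Finset.mem_univ _, ?_⟩
      have hf : ∀ i, f i = φ i := fun i => rfl
      apply List.ext_getElem
      · rw [List.length_ofFn, hlen]
      · intro n h1 h2
        rw [List.getElem_ofFn]
        exact hf _
    calc Tk G k = ∑ L ∈ (NL (∅ : Finset V) k).filter (fun L => pw (aj G) L ≠ 0),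
          pw (aj G) L := by
          unfold Tk
          rw [Finset.sum_filter_ne_zero]
      _ = ∑ L ∈ (NL (∅ : Finset V) k).filter (fun L => pw (aj G) L ≠ 0), (1 : ℝ) := by
          refine Finset.sum_congr rfl fun L hL => ?_
          rw [Finset.mem_filter] at hL
          exact (ol5_pw G L hL.2).1
      _ = (((NL (∅ : Finset V) k).filter (fun L => pw (aj G) L ≠ 0)).card : ℝ) := by simp
      _ ≤ _ := by
          exact_mod_cast (Finset.card_le_card hsub).trans Finset.card_image_le
  calc Tk G k ≤
      ((Finset.univ : Finset (SimpleGraph.Copy (SimpleGraph.pathGraph k) G)).card : ℝ) := hA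
    _ ≤ ((2 * G.copyCount (SimpleGraph.pathGraph k) : ℕ) : ℝ) := by exact_mod_cast hB
    _ = _ := by push_cast; ring

end

end Pool.Agent.Lib.MP_009d13_co.OL
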