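import Pool.Agent.Lib.MP_009d13_co.OL.Defs

/-!
# OL6

choice_ge: induction on k: z 0 ∈ S 0 minus A (at least m - |A| choices), the rest with A ∪ {z 0}
(Fin.consEquiv / card_sigma, or an injection from the sigma type). choice_pair: for every p ∈ E
put p on the places i, i+1 and choose the other k values by choice_ge with A = {p.1, p.2} and the
sets S restricted to the other places (e.g. the order embedding of Fin k that skips i and i+1: t
if t < i, t + 2 otherwise); different (p, rest) give different z.
-/

set_option autoImplicit false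

namespace Pool.Agent.Lib.MP_009d13_co.OL

open Finset Classical
open Pool.Agent.Lib.MP_009d13_co.P5 (IsMinor IsPlanar)
open Pool.Agent.Lib.MP_009d13_co.OD (NL pw aj Tk)

noncomputable section

theorem choice_ge {V : Type} [Fintype V] (m : ℕ) (A : Finset V) {k : ℕ} (S : Fin k → Finset V)
    (hS : ∀ t, m ≤ (S t).card) :
    (m - A.card - k) ^ k ≤ (univ.filter fun z : Fin k → V =>
      Function.Injective z ∧ ∀ t, z t ∈ S t ∧ z t ∉ A).card := by
  induction k generalizing A with
  | zero =>
    rw [pow_zero, Nat.one_le_iff_ne_zero, Finset.card_ne_zero]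
    refine ⟨fun t => t.elim0, ?_⟩
    rw [mem_filter]
    exact ⟨mem_univ _, fun a => a.elim0, fun t => t.elim0⟩
  | succ k ih =>
    set T : V → Finset (Fin k → V) := fun a => univ.filter fun z : Fin k → V =>
      Function.Injective z ∧ ∀ t, z t ∈ S t.succ ∧ z t ∉ insert a A with hT
    have h1 : ∀ a ∈ S 0 \ A, (m - A.card - (k + 1)) ^ k ≤ (T a).card := by
      intro a ha
      rw [mem_sdiff] at ha
      have h2 := ih (insert a A) (fun t => S t.succ) (fun t => hS _)
      rw [card_insert_of_notMem ha.2] at h2
      have e : m - A.card - (k + 1) = m - (A.card + 1) - k := by omega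
      rw [e]
      exact h2
    have h3 : m - A.card - (k + 1) ≤ (S 0 \ A).card := by
      have h4 := Finset.le_card_sdiff A (S 0)
      have h5 := hS 0
      omega
    have h6 : ((S 0 \ A).sigma T).card ≤ (univ.filter fun z : Fin (k + 1) → V =>
        Function.Injective z ∧ ∀ t, z t ∈ S t ∧ z t ∉ A).card := by
      apply Finset.card_le_card_of_injOn
        (fun x : (_ : V) × (Fin k → V) => (Fin.cons x.1 x.2 : Fin (k + 1) → V))
      · rintro ⟨a, z⟩ hx
        rw [mem_coe, mem_sigma] at hx
        obtain ⟨ha, hz⟩ := hx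
        simp only at ha hz
        rw [mem_sdiff] at ha
        rw [hT, mem_filter] at hz
        obtain ⟨_, hz1, hz2⟩ := hz
        rw [mem_coe, mem_filter]
        refine ⟨mem_univ _, ?_, ?_⟩
        · rw [Fin.cons_injective_iff]
          refine ⟨?_, hz1⟩
          rintro ⟨t, ht⟩
          simp only at ht
          exact (hz2 t).2 (by rw [ht]; exact mem_insert_self _ _)
        · intro t
          refine Fin.cases ?_ (fun t => ?_) t
          · exact ⟨ha.1, ha.2⟩
          · exact ⟨(hz2 t).1, fun h => (hz2 t).2 (mem_insert_of_mem h)⟩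
      · rintro ⟨a, z⟩ _ ⟨b, w⟩ _ h
        simp only at h
        have h7 := Fin.cons_injective2 h
        rw [h7.1, h7.2]
    rw [Finset.card_sigma] at h6
    refine le_trans ?_ h6
    rw [pow_succ']
    calc (m - A.card - (k + 1)) * (m - A.card - (k + 1)) ^ k
        ≤ (S 0 \ A).card * (m - A.card - (k + 1)) ^ k := Nat.mul_le_mul_right _ h3
      _ = ∑ _a ∈ S 0 \ A, (m - A.card - (k + 1)) ^ k := by rw [sum_const, smul_eq_mul]
      _ ≤ ∑ a ∈ S 0 \ A, (T a).card := sum_le_sum h1

theorem OL6_inj {V : Type} {n : ℕ} (i : Fin (n + 1)) (x : V) (y : Fin n → V)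
    (hy : Function.Injective y) (hx : ∀ j, y j ≠ x) :
    Function.Injective (i.insertNth x y : Fin (n + 1) → V) := by
  intro a b hab
  rcases Fin.eq_self_or_eq_succAbove i a with rfl | ⟨a', rfl⟩
  · rcases Fin.eq_self_or_eq_succAbove a b with rfl | ⟨b', rfl⟩
    · rfl
    · rw [Fin.insertNth_apply_same, Fin.insertNth_apply_succAbove] at hab
      exact absurd hab.symm (hx b')
  · rcases Fin.eq_self_or_eq_succAbove i b with rfl | ⟨b', rfl⟩
    · rw [Fin.insertNth_apply_same, Fin.insertNth_apply_succAbove] at hab
      exact absurd hab (hx a')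
    · rw [Fin.insertNth_apply_succAbove, Fin.insertNth_apply_succAbove] at hab
      rw [hy hab]

theorem choice_pair {V : Type} [Fintype V] (m : ℕ) {k : ℕ} (S : Fin (k + 2) → Finset V)
    (i : Fin (k + 1)) (E : Finset (V × V)) (hE : ∀ p ∈ E, p.1 ≠ p.2 ∧ p.1 ∈ S i.castSucc ∧
      p.2 ∈ S i.succ) (hS : ∀ t, m ≤ (S t).card) :
    E.card * (m - 2 - k) ^ k ≤ (univ.filter fun z : Fin (k + 2) → V =>
      Function.Injective z ∧ (∀ t, z t ∈ S t) ∧ (z i.castSucc, z i.succ) ∈ E).card := by
  have hi : i.castSucc.succAbove i = i.succ := Fin.succAbove_castSucc_self i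
  set T : V × V → Finset (Fin k → V) := fun p => univ.filter fun z : Fin k → V =>
    Function.Injective z ∧ ∀ t, z t ∈ S (i.castSucc.succAbove (i.succAbove t)) ∧
      z t ∉ ({p.1, p.2} : Finset V) with hT
  have h1 : ∀ p ∈ E, (m - 2 - k) ^ k ≤ (T p).card := by
    intro p hp
    have h2 := choice_ge m ({p.1, p.2} : Finset V)
      (fun t => S (i.castSucc.succAbove (i.succAbove t))) (fun t => hS _)
    rwa [card_pair (hE p hp).1] at h2
  have h6 : (E.sigma T).card ≤ (univ.filter fun z : Fin (k + 2) → V =>
      Function.Injective z ∧ (∀ t, z t ∈ S t) ∧ (z i.castSucc, z i.succ) ∈ E).card := by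
    apply Finset.card_le_card_of_injOn
      (fun x : (_ : V × V) × (Fin k → V) =>
        (i.castSucc.insertNth x.1.1 (i.insertNth x.1.2 x.2 : Fin (k + 1) → V) :
          Fin (k + 2) → V))
    · rintro ⟨p, z⟩ hx
      rw [mem_coe, mem_sigma] at hx
      obtain ⟨hp, hz⟩ := hx
      simp only at hp hz
      rw [hT, mem_filter] at hz
      obtain ⟨_, hz1, hz2⟩ := hz
      obtain ⟨hp1, hp2, hp3⟩ := hE p hp
      rw [mem_coe, mem_filter]
      simp only
      have e1 : (i.castSucc.insertNth p.1 (i.insertNth p.2 z : Fin (k + 1) → V) :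
          Fin (k + 2) → V) i.castSucc = p.1 := Fin.insertNth_apply_same _ _ _
      have e2 : (i.castSucc.insertNth p.1 (i.insertNth p.2 z : Fin (k + 1) → V) :
          Fin (k + 2) → V) i.succ = p.2 := by
        rw [← hi, Fin.insertNth_apply_succAbove, Fin.insertNth_apply_same]
      have hne : ∀ t, z t ≠ p.1 ∧ z t ≠ p.2 := by
        intro t
        have := (hz2 t).2
        rw [mem_insert, mem_singleton, not_or] at this
        exact this
      refine ⟨mem_univ _, ?_, ?_, ?_⟩
      · apply OL6_inj _ _ _ (OL6_inj _ _ _ hz1 (fun t => (hne t).2))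
        intro j
        rcases Fin.eq_self_or_eq_succAbove i j with rfl | ⟨t, rfl⟩
        · rw [Fin.insertNth_apply_same]
          exact hp1.symm
        · rw [Fin.insertNth_apply_succAbove]
          exact (hne t).1
      · intro t
        rcases Fin.eq_self_or_eq_succAbove i.castSucc t with rfl | ⟨j, rfl⟩
        · rw [Fin.insertNth_apply_same]
          exact hp2
        · rw [Fin.insertNth_apply_succAbove]
          rcases Fin.eq_self_or_eq_succAbove i j with rfl | ⟨t, rfl⟩
          · rw [Fin.insertNth_apply_same, hi]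
            exact hp3
          · rw [Fin.insertNth_apply_succAbove]
            exact (hz2 t).1
      · rw [e1, e2]
        exact hp
    · rintro ⟨p, z⟩ _ ⟨q, w⟩ _ h
      simp only at h
      have h7 : p.1 = q.1 := by
        have := congrFun h i.castSucc
        rwa [Fin.insertNth_apply_same, Fin.insertNth_apply_same] at this
      have h8 : (i.insertNth p.2 z : Fin (k + 1) → V) = i.insertNth q.2 w := by
        funext j
        have := congrFun h (i.castSucc.succAbove j)
        rwa [Fin.insertNth_apply_succAbove, Fin.insertNth_apply_succAbove] at this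
      have h9 : p.2 = q.2 := by
        have := congrFun h8 i
        rwa [Fin.insertNth_apply_same, Fin.insertNth_apply_same] at this
      have h10 : z = w := by
        funext t
        have := congrFun h8 (i.succAbove t)
        rwa [Fin.insertNth_apply_succAbove, Fin.insertNth_apply_succAbove] at this
      rw [h10, Prod.ext h7 h9]
  rw [Finset.card_sigma] at h6
  refine le_trans ?_ h6
  calc E.card * (m - 2 - k) ^ k = ∑ _p ∈ E, (m - 2 - k) ^ k := by rw [sum_const, smul_eq_mul]
    _ ≤ ∑ p ∈ E, (T p).card := sum_le_sum h1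

end

end Pool.Agent.Lib.MP_009d13_co.OL
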