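import Pool.Agent.Lib.MP_009d13_co.OL.Defs

/-!
# OL7

card_class: v = c + l q with 1 ≤ q ≤ n/l - 1 (c + l (n/l - 1) < l (n/l) ≤ n). card_Ep: the pairs
(c + l q, c + l (q+1)) and their swaps, 1 ≤ q ≤ n/l - 2.
-/

set_option autoImplicit false

namespace Pool.Agent.Lib.MP_009d13_co.OL

open Finset Classical
open Pool.Agent.Lib.MP_009d13_co.P5 (IsMinor IsPlanar)
open Pool.Agent.Lib.MP_009d13_co.OD (NL pw aj Tk)

noncomputable section

lemma ol7_lt {l n c q : ℕ} (hc : c < l) (hq : q + 2 ≤ n / l) : c + l * (q + 1) < n := by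
  have h1 : l * (n / l) ≤ n := Nat.mul_div_le n l
  have h2 : l * (q + 2) ≤ l * (n / l) := Nat.mul_le_mul_left l hq
  have h3 : l * (q + 2) = l + l * (q + 1) := by ring
  omega

lemma ol7_mod {l c q : ℕ} (hc : c < l) : (c + l * q) % l = c := by
  rw [Nat.add_mul_mod_self_left, Nat.mod_eq_of_lt hc]

lemma ol7_le {l c q : ℕ} : l ≤ c + l * (q + 1) := by
  have : l * (q + 1) = l * q + l := by ring
  omega

theorem card_class {l n c : ℕ} (hl : 1 ≤ l) (hc : c < l) :
    n / l - 1 ≤ (univ.filter fun v : Fin n => l ≤ v.1 ∧ v.1 % l = c).card := by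
  let f : Fin (n / l - 1) → Fin n := fun q =>
    ⟨c + l * (q.1 + 1), ol7_lt hc (by have := q.2; omega)⟩
  have hf : Function.Injective f := by
    intro q q' h
    have h1 : c + l * (q.1 + 1) = c + l * (q'.1 + 1) := congrArg Fin.val h
    have h2 : l * (q.1 + 1) = l * (q'.1 + 1) := by omega
    have h3 := Nat.eq_of_mul_eq_mul_left (by omega : 0 < l) h2
    exact Fin.ext (by omega)
  have h1 : (univ.image f) ⊆ (univ.filter fun v : Fin n => l ≤ v.1 ∧ v.1 % l = c) := by
    intro v hv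
    obtain ⟨q, -, rfl⟩ := mem_image.1 hv
    exact mem_filter.2 ⟨mem_univ _, ol7_le, ol7_mod hc⟩
  have h2 := card_le_card h1
  rw [card_image_of_injective _ hf, card_univ, Fintype.card_fin] at h2
  exact h2

theorem card_Ep {l n c : ℕ} (hl : 1 ≤ l) (hc : c < l) : 2 * (n / l - 2) ≤ (Ep l n c).card := by
  let g : Fin (n / l - 2) → Fin n := fun q =>
    ⟨c + l * (q.1 + 1), ol7_lt hc (by have := q.2; omega)⟩
  let g' : Fin (n / l - 2) → Fin n := fun q =>
    ⟨c + l * (q.1 + 1 + 1), ol7_lt hc (by have := q.2; omega)⟩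
  let f : Fin (n / l - 2) × Bool → Fin n × Fin n := fun q =>
    if q.2 = true then (g q.1, g' q.1) else (g' q.1, g q.1)
  have hinj : ∀ a b : ℕ, c + l * a = c + l * b → a = b := by
    intro a b h
    exact Nat.eq_of_mul_eq_mul_left (by omega : 0 < l) (by omega)
  have hf : Function.Injective f := by
    rintro ⟨q, s⟩ ⟨q', s'⟩ h
    have h1 := congrArg (fun p : Fin n × Fin n => p.1.1) h
    have h2 := congrArg (fun p : Fin n × Fin n => p.2.1) h
    cases s <;> cases s'
    · have := hinj _ _ h1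
      exact Prod.ext (Fin.ext (by omega)) rfl
    · have a1 := hinj (q.1 + 1 + 1) (q'.1 + 1) h1
      have a2 := hinj (q.1 + 1) (q'.1 + 1 + 1) h2
      omega
    · have a1 := hinj (q.1 + 1) (q'.1 + 1 + 1) h1
      have a2 := hinj (q.1 + 1 + 1) (q'.1 + 1) h2
      omega
    · have := hinj _ _ h1
      exact Prod.ext (Fin.ext (by omega)) rfl
  have h1 : (univ.image f) ⊆ Ep l n c := by
    intro v hv
    obtain ⟨⟨q, s⟩, -, rfl⟩ := mem_image.1 hv
    have e : l * (q.1 + 1 + 1) = l * (q.1 + 1) + l := by ring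
    cases s
    · refine mem_filter.2 ⟨mem_univ _, ol7_le, ol7_mod hc, ol7_le, ol7_mod hc, Or.inr ?_⟩
      show c + l * (q.1 + 1 + 1) = c + l * (q.1 + 1) + l
      omega
    · refine mem_filter.2 ⟨mem_univ _, ol7_le, ol7_mod hc, ol7_le, ol7_mod hc, Or.inl ?_⟩
      show c + l * (q.1 + 1 + 1) = c + l * (q.1 + 1) + l
      omega
  have h2 := card_le_card h1
  rw [card_image_of_injective _ hf, card_univ, Fintype.card_prod, Fintype.card_fin,
    Fintype.card_bool] at h2
  omega

end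

end Pool.Agent.Lib.MP_009d13_co.OL
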