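import Pool.Agent.Lib.MP_009d13_co.OL.Defs
import Pool.Agent.Lib.MP_009d13_co.OL.OL6
import Pool.Agent.Lib.MP_009d13_co.OL.OL7

/-!
# OL8

choice_pair with k = l, m = n/l - 1, S t = {v | l ≤ v.1 ∧ v.1 % l = lc l τ t}, i = the place of τ
(lc at i and i+1 is gp at i in both cases), E = Ep l n (lc l τ i). lc l τ t < l (all values are
reduced mod l or equal to the first hub < l). Pairs in Ep are adjacent in the ring (fromRel, both
≥ l, differ by l ≥ 1).
-/

set_option autoImplicit false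

namespace Pool.Agent.Lib.MP_009d13_co.OL

open Finset Classical
open Pool.Agent.Lib.MP_009d13_co.P5 (IsMinor IsPlanar)
open Pool.Agent.Lib.MP_009d13_co.OD (NL pw aj Tk)

noncomputable section

theorem ol8_gp_lt {l : ℕ} (hl : 1 ≤ l) (s : Bool) {a : ℕ} (ha : a < l) (c0 c1 : Bool) (t : ℕ) :
    gp l s a c0 c1 t < l := by
  have hm : ∀ x : ℕ, x % l < l := fun x => Nat.mod_lt x (by omega)
  unfold gp hb
  split_ifs <;> first | exact ha | exact hm _

theorem ol8_lc_lt {l : ℕ} (hl : 1 ≤ l) (τ : Tm l) (t : ℕ) : lc l τ t < l :=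
  ol8_gp_lt hl _ τ.2.1.2 _ _ _

theorem card_Zs {l n : ℕ} (hl : 3 ≤ l) (τ : Tm l) :
    2 * (n / l - 2) * (n / l - 3 - l) ^ l ≤ (Zs l n τ).card := by
  have hl1 : 1 ≤ l := by omega
  obtain ⟨i, hi⟩ : ∃ i : Fin (l + 1), i = τ.2.2.1 := ⟨_, rfl⟩
  have hlc : lc l τ (i.1 + 1) = lc l τ i.1 := by
    unfold lc
    rw [← hi, if_neg (by omega), if_pos le_rfl, Nat.add_sub_cancel]
  have h := choice_pair (V := Fin n) (n / l - 1) (k := l)
    (fun t : Fin (l + 2) => univ.filter fun v : Fin n => l ≤ v.1 ∧ v.1 % l = lc l τ t.1) i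
    (Ep l n (lc l τ i.1)) (fun p hp => by
      unfold Ep at hp
      rw [mem_filter] at hp
      obtain ⟨-, h1, h2, h3, h4, h5⟩ := hp
      refine ⟨fun h => ?_, ?_, ?_⟩
      · rw [h] at h5
        omega
      · rw [mem_filter, Fin.val_castSucc]
        exact ⟨mem_univ _, h1, h2⟩
      · rw [mem_filter, Fin.val_succ, hlc]
        exact ⟨mem_univ _, h3, h4⟩)
    (fun t => card_class hl1 (ol8_lc_lt hl1 τ t.1))
  have hE := card_Ep (n := n) hl1 (ol8_lc_lt hl1 τ i.1)
  have e1 : n / l - 1 - 2 - l = n / l - 3 - l := by omega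
  rw [e1] at h
  refine (Nat.mul_le_mul_right _ hE).trans (h.trans (card_le_card ?_))
  intro z hz
  obtain ⟨-, h1, h2, h3⟩ := (@Finset.mem_filter _ _ (_) _ _).1 hz
  unfold Zs
  rw [mem_filter]
  refine ⟨mem_univ _, h1, fun t => (mem_filter.1 (h2 t)).2, fun t t' ht ht' => ?_⟩
  have q1 : t = i.castSucc := Fin.ext (by rw [Fin.val_castSucc, hi]; exact ht)
  have q2 : t' = i.succ := Fin.ext (by rw [Fin.val_succ, hi, ht', ht])
  rw [q1, q2]
  unfold Ep at h3
  rw [mem_filter] at h3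
  obtain ⟨-, g1, g2, g3, g4, g5⟩ := h3
  unfold ring
  rw [SimpleGraph.fromRel_adj]
  refine ⟨fun h => ?_, ?_⟩
  · have h' : (z i.castSucc).1 = (z i.succ).1 := congrArg Fin.val h
    rcases g5 with g5 | g5
    · have g6 : (z i.succ).1 = (z i.castSucc).1 + l := g5
      omega
    · have g6 : (z i.castSucc).1 = (z i.succ).1 + l := g5
      omega
  · rcases g5 with g5 | g5
    · exact Or.inl (Or.inr ⟨g1, g5⟩)
    · exact Or.inr (Or.inr ⟨g3, g5⟩)

end

end Pool.Agent.Lib.MP_009d13_co.OL
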