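import Pool.Agent.Lib.MP_009d13_co.OL.Defs

/-!
# OL9

vx_lt: a low vertex is z t < n, a hub is < l < n. vx_adj: with i = the place of τ and a_t = hb l s
a t: p = 2t < 2i: z_t, a_t; p = 2t+1 < 2i: a_t, z_(t+1); p = 2i: z_i, z_(i+1) (last condition of
Zs); p = 2t+1 > 2i: z_(t+1), a_t; p = 2t+2 > 2i: a_t, z_(t+2). In each case the class of the low
vertex is gp at t or t+1, which is adjacent to a_t: the class c is adjacent to the hubs c and
(c+1) % l: for s = true a_(t) = (a_(t-1) + 1) % l, for s = false (a_t + 1) % l = a_(t-1) (as t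
(l-1) + 1 and (t-1)(l-1) are congruent mod l); gap 0: class a or (a + l - 1) % l at the hub a = hb
l s a 0; gap l: the same at hb (l-1). ring adjacency: fromRel, hub < l ≤ low.
-/

set_option autoImplicit false

namespace Pool.Agent.Lib.MP_009d13_co.OL

open Finset Classical
open Pool.Agent.Lib.MP_009d13_co.P5 (IsMinor IsPlanar)
open Pool.Agent.Lib.MP_009d13_co.OD (NL pw aj Tk)

noncomputable section

theorem ol9_hb_lt {l : ℕ} (hl : 3 ≤ l) (s : Bool) (a t : ℕ) : hb l s a t < l :=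
  Nat.mod_lt _ (by omega)

theorem ol9_wrap {l h : ℕ} (hl : 3 ≤ l) (hh : h < l) : ((h + (l - 1)) % l + 1) % l = h := by
  rw [Nat.mod_add_mod, show h + (l - 1) + 1 = h + l by omega, Nat.add_mod_right,
    Nat.mod_eq_of_lt hh]

theorem ol9_step_true (l a t : ℕ) : (hb l true a t + 1) % l = hb l true a (t + 1) := by
  unfold hb
  rw [Nat.mod_add_mod]
  simp only [if_true, mul_one]
  rw [add_assoc]

theorem ol9_step_false {l : ℕ} (hl : 3 ≤ l) (a t : ℕ) :
    (hb l false a (t + 1) + 1) % l = hb l false a t := by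
  unfold hb
  rw [Nat.mod_add_mod]
  simp only [Bool.false_eq_true, if_false]
  have h1 : a + (t + 1) * (l - 1) + 1 = a + t * (l - 1) + l := by
    have h2 : (t + 1) * (l - 1) = t * (l - 1) + (l - 1) := by ring
    omega
  rw [h1, Nat.add_mod_right]

theorem ol9_ga1 {l : ℕ} (hl : 3 ≤ l) (s : Bool) (a : ℕ) (ha : a < l) (c0 c1 : Bool) (t : ℕ)
    (ht : t < l) : gp l s a c0 c1 t = hb l s a t ∨ (gp l s a c0 c1 t + 1) % l = hb l s a t := by
  by_cases h0 : t = 0
  · subst h0
    have h1 : hb l s a 0 = a := by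
      unfold hb
      rw [zero_mul, add_zero, Nat.mod_eq_of_lt ha]
    rw [h1]
    unfold gp
    rw [if_pos rfl]
    cases c0
    · right
      simp only [Bool.false_eq_true, if_false]
      exact ol9_wrap hl ha
    · left
      simp
  · unfold gp
    rw [if_neg h0, if_neg (by omega)]
    cases s
    · left
      simp
    · right
      simp only [if_true]
      rw [ol9_step_true, show t - 1 + 1 = t by omega]

theorem ol9_ga2 {l : ℕ} (hl : 3 ≤ l) (s : Bool) (a : ℕ) (c0 c1 : Bool) (t : ℕ)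
    (ht : t < l) : gp l s a c0 c1 (t + 1) = hb l s a t ∨
      (gp l s a c0 c1 (t + 1) + 1) % l = hb l s a t := by
  unfold gp
  rw [if_neg (by omega)]
  by_cases h1 : t + 1 = l
  · rw [if_pos h1]
    have h2 : t = l - 1 := by omega
    rw [h2]
    cases c1
    · right
      simp only [Bool.false_eq_true, if_false]
      exact ol9_wrap hl (ol9_hb_lt hl s a _)
    · left
      simp
  · rw [if_neg h1]
    cases s
    · right
      simp only [Bool.false_eq_true, if_false]
      exact ol9_step_false hl a t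
    · left
      simp

theorem ol9_adj {l n : ℕ} {x y : Fin n} {h c : ℕ} (hx : x.1 = h) (hh : h < l) (hy : l ≤ y.1)
    (hc : y.1 % l = c) (hch : c = h ∨ (c + 1) % l = h) : (ring l n).Adj x y := by
  unfold ring
  rw [SimpleGraph.fromRel_adj]
  refine ⟨fun h1 => ?_, Or.inl (Or.inl ⟨by omega, hy, ?_⟩)⟩
  · rw [h1] at hx; omega
  · rcases hch with h1 | h1
    · left; omega
    · right
      rw [← Nat.mod_add_mod, hc, h1, hx]

theorem vx_lt {l n : ℕ} (hl : 3 ≤ l) (hn : l < n) (τ : Tm l) {z : Fin (l + 2) → Fin n}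
    (hz : z ∈ Zs l n τ) {p : ℕ} (hp : p < 2 * l + 2) : vx l n τ z p < n := by
  have hh : ∀ t, hb l τ.1 τ.2.1.1 t < n := fun t => (ol9_hb_lt hl _ _ _).trans hn
  unfold vx
  split_ifs
  · exact (z _).2
  · omega
  · exact hh _
  · exact (z _).2
  · omega
  · exact hh _

theorem vx_adj {l n : ℕ} (hl : 3 ≤ l) (hn : l < n) (τ : Tm l) {z : Fin (l + 2) → Fin n}
    (hz : z ∈ Zs l n τ) {p : ℕ} (hp : p + 1 < 2 * l + 2) {x y : Fin n}
    (hx : x.1 = vx l n τ z p) (hy : y.1 = vx l n τ z (p + 1)) : (ring l n).Adj x y := by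
  unfold Zs at hz
  rw [Finset.mem_filter] at hz
  obtain ⟨-, -, hcl, hadj⟩ := hz
  obtain ⟨s, a, i, c0, c1⟩ := τ
  have hi : i.1 ≤ l := by have := i.2; omega
  have ha := a.2
  -- the class of a low vertex
  have hlc1 : ∀ t (ht : t < l + 2), t ≤ i.1 → (z ⟨t, ht⟩).1 % l = gp l s a.1 c0 c1 t := by
    intro t ht h1
    rw [(hcl ⟨t, ht⟩).2]
    unfold lc
    change gp l s a.1 c0 c1 (if t ≤ i.1 then t else t - 1) = _
    rw [if_pos h1]
  have hlc2 : ∀ t (ht : t + 1 < l + 2), i.1 ≤ t →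
      (z ⟨t + 1, ht⟩).1 % l = gp l s a.1 c0 c1 t := by
    intro t ht h1
    rw [(hcl ⟨t + 1, ht⟩).2]
    unfold lc
    change gp l s a.1 c0 c1 (if t + 1 ≤ i.1 then t + 1 else t + 1 - 1) = _
    rw [if_neg (by omega), Nat.add_sub_cancel]
  unfold vx at hx hy
  change x.1 = if p ≤ 2 * i.1 then
    (if p % 2 = 0 then (if h : p / 2 < l + 2 then (z ⟨p / 2, h⟩).1 else 0)
      else hb l s a.1 ((p - 1) / 2))
    else (if p % 2 = 1 then (if h : (p + 1) / 2 < l + 2 then (z ⟨(p + 1) / 2, h⟩).1 else 0)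
      else hb l s a.1 (p / 2 - 1)) at hx
  change y.1 = if p + 1 ≤ 2 * i.1 then
    (if (p + 1) % 2 = 0 then (if h : (p + 1) / 2 < l + 2 then (z ⟨(p + 1) / 2, h⟩).1 else 0)
      else hb l s a.1 ((p + 1 - 1) / 2))
    else (if (p + 1) % 2 = 1 then
        (if h : (p + 1 + 1) / 2 < l + 2 then (z ⟨(p + 1 + 1) / 2, h⟩).1 else 0)
      else hb l s a.1 ((p + 1) / 2 - 1)) at hy
  obtain ⟨t, ht | ht⟩ : ∃ t, p = 2 * t ∨ p = 2 * t + 1 := ⟨p / 2, by omega⟩
  · subst ht
    have e1 : 2 * t / 2 = t := by omega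
    have e2 : (2 * t + 1 - 1) / 2 = t := by omega
    have e3 : (2 * t + 1 + 1) / 2 = t + 1 := by omega
    rcases lt_trichotomy t i.1 with h1 | h1 | h1
    · -- `z_t`, `a_t`
      rw [if_pos (by omega), if_pos (by omega), dif_pos (by omega)] at hx
      rw [if_pos (by omega), if_neg (by omega)] at hy
      rw [e2] at hy
      simp only [e1] at hx
      have h2 : x = z ⟨t, by omega⟩ := Fin.ext hx
      refine (ol9_adj hy (ol9_hb_lt hl _ _ _) ?_ ?_ (ol9_ga1 hl s a.1 ha c0 c1 t (by omega))).symm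
      · rw [h2]; exact (hcl _).1
      · rw [h2]; exact hlc1 t _ (by omega)
    · rw [if_pos (by omega), if_pos (by omega), dif_pos (by omega)] at hx
      rw [if_neg (by omega), if_pos (by omega), dif_pos (by omega)] at hy
      simp only [e1] at hx
      simp only [e3] at hy
      have h2 : x = z ⟨t, by omega⟩ := Fin.ext hx
      have h3 : y = z ⟨t + 1, by omega⟩ := Fin.ext hy
      rw [h2, h3]
      exact hadj _ _ h1 rfl
    · -- `a_(t-1)`, `z_(t+1)`
      rw [if_neg (by omega), if_neg (by omega)] at hx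
      rw [if_neg (by omega), if_pos (by omega), dif_pos (by omega)] at hy
      rw [e1] at hx
      simp only [e3] at hy
      have h3 : y = z ⟨t + 1, by omega⟩ := Fin.ext hy
      have h4 := ol9_ga2 hl s a.1 c0 c1 (t - 1) (by omega)
      rw [show t - 1 + 1 = t by omega] at h4
      refine ol9_adj hx (ol9_hb_lt hl _ _ _) ?_ ?_ h4
      · rw [h3]; exact (hcl _).1
      · rw [h3]; exact hlc2 t _ (by omega)
  · subst ht
    have e1 : (2 * t + 1 - 1) / 2 = t := by omega
    have e2 : (2 * t + 1 + 1) / 2 = t + 1 := by omega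
    rcases lt_or_ge t i.1 with h1 | h1
    · -- `a_t`, `z_(t+1)`
      rw [if_pos (by omega), if_neg (by omega)] at hx
      rw [if_pos (by omega), if_pos (by omega), dif_pos (by omega)] at hy
      rw [e1] at hx
      simp only [e2] at hy
      have h3 : y = z ⟨t + 1, by omega⟩ := Fin.ext hy
      refine ol9_adj hx (ol9_hb_lt hl _ _ _) ?_ ?_ (ol9_ga2 hl s a.1 c0 c1 t (by omega))
      · rw [h3]; exact (hcl _).1
      · rw [h3]; exact hlc1 (t + 1) _ (by omega)
    · -- `z_(t+1)`, `a_t`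
      rw [if_neg (by omega), if_pos (by omega), dif_pos (by omega)] at hx
      rw [if_neg (by omega), if_neg (by omega)] at hy
      simp only [e2] at hx
      rw [e2, Nat.add_sub_cancel] at hy
      have h2 : x = z ⟨t + 1, by omega⟩ := Fin.ext hx
      refine (ol9_adj hy (ol9_hb_lt hl _ _ _) ?_ ?_ (ol9_ga1 hl s a.1 ha c0 c1 t (by omega))).symm
      · rw [h2]; exact (hcl _).1
      · rw [h2]; exact hlc2 t _ (by omega)

end

end Pool.Agent.Lib.MP_009d13_co.OL
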