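import Pool.Agent.Lib.MP_009d13_co.OL.Defs
import Pool.Agent.Lib.MP_009d13_co.OD.LS1
import Pool.Agent.Lib.MP_009d13_co.OD.LS4
import Pool.Agent.Lib.MP_009d13_co.OL.OL4
import Pool.Agent.Lib.MP_009d13_co.OL.OL5
import Pool.Agent.Lib.MP_009d13_co.OL.OL8
import Pool.Agent.Lib.MP_009d13_co.OL.OL9
import Pool.Agent.Lib.MP_009d13_co.OL.OL10

/-!
# OL11

tk_ge: the map (τ, z) -> List.ofFn (fun p : Fin (2l+2) => vertex vx l n τ z p) from the sigma type
over all τ : Tm l (Fintype.card (Tm l) = 2 * l * (l+1) * 2 * 2) of Zs l n τ into NL ∅ (2l+2)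
(nodup by vx_inj, entries < n by vx_lt) is injective (vx_unique) and pw (aj G) of the image is 1
(vx_adj). card_Zs. lower: C := 8 l (l+1) (l+1)(l+5); G = ring l n (ring_planar), le_copy (k =
2l+2) and tk_ge: copies ≥ 8 l (l+1) (q - 2)(q - 3 - l)^l, q = n/l (floor) ≥ n/l - 1, so with x =
(n : ℝ)/l: copies ≥ 8 l (l+1) max(x - (l+5), 0)^(l+1) ≥ 8 l (l+1) (x^(l+1) - (l+1)(l+5) x^l)
(Bernoulli: one_add_mul_le_pow), and x^l ≤ n^l.
-/

set_option autoImplicit false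

namespace Pool.Agent.Lib.MP_009d13_co.OL

open Finset Classical
open Pool.Agent.Lib.MP_009d13_co.P5 (IsMinor IsPlanar)
open Pool.Agent.Lib.MP_009d13_co.OD (NL pw aj Tk)

noncomputable section

theorem ol11_pw {V : Type} [Fintype V] (G : SimpleGraph V) (k : ℕ) (f : Fin k → V)
    (h : ∀ p q : Fin k, q.1 = p.1 + 1 → G.Adj (f p) (f q)) : pw (aj G) (List.ofFn f) = 1 := by
  induction k with
  | zero => simp [List.ofFn_zero, pw]
  | succ k ih =>
    rw [List.ofFn_succ]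
    have h1 := ih (fun i => f i.succ) (fun p q hpq => h _ _ (by
      rw [Fin.val_succ, Fin.val_succ, hpq]))
    rcases Nat.eq_zero_or_pos k with hk | hk
    · subst hk
      simp [List.ofFn_zero, pw]
    · obtain ⟨m, rfl⟩ : ∃ m, k = m + 1 := ⟨k - 1, by omega⟩
      rw [List.ofFn_succ] at h1 ⊢
      have h2 : G.Adj (f 0) (f (Fin.succ 0)) := h _ _ (by simp)
      rw [pw, h1, mul_one]
      unfold aj
      rw [if_pos h2]

/-- The path of a template as a list. -/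
def ol11F (l n : ℕ) (hn : 0 < n) (τ : Tm l) (z : Fin (l + 2) → Fin n) : List (Fin n) :=
  List.ofFn fun p : Fin (2 * l + 2) =>
    if h : vx l n τ z p.1 < n then (⟨vx l n τ z p.1, h⟩ : Fin n) else ⟨0, hn⟩

theorem ol11_val {l n : ℕ} (hl : 3 ≤ l) (hn : l < n) (h0 : 0 < n) (τ : Tm l)
    {z : Fin (l + 2) → Fin n} (hz : z ∈ Zs l n τ) (p : Fin (2 * l + 2)) :
    (if h : vx l n τ z p.1 < n then (⟨vx l n τ z p.1, h⟩ : Fin n) else ⟨0, h0⟩).1
      = vx l n τ z p.1 := by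
  rw [dif_pos (vx_lt hl hn τ hz p.2)]

theorem ol11_mem {l n : ℕ} (hl : 3 ≤ l) (hn : l < n) (h0 : 0 < n) (τ : Tm l)
    {z : Fin (l + 2) → Fin n} (hz : z ∈ Zs l n τ) :
    ol11F l n h0 τ z ∈ NL (∅ : Finset (Fin n)) (2 * l + 2) := by
  rw [OD.mem_NL]
  refine ⟨by unfold ol11F; rw [List.length_ofFn], ?_, fun x _ => notMem_empty x⟩
  unfold ol11F
  rw [List.nodup_ofFn]
  intro p q hpq
  have h1 := congrArg Fin.val hpq
  simp only at h1
  rw [ol11_val hl hn h0 τ hz p, ol11_val hl hn h0 τ hz q] at h1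
  exact Fin.ext (vx_inj hl hn τ hz p.2 q.2 h1)

theorem ol11_one {l n : ℕ} (hl : 3 ≤ l) (hn : l < n) (h0 : 0 < n) (τ : Tm l)
    {z : Fin (l + 2) → Fin n} (hz : z ∈ Zs l n τ) :
    pw (aj (ring l n)) (ol11F l n h0 τ z) = 1 := by
  unfold ol11F
  refine ol11_pw _ _ _ fun p q hpq => ?_
  refine vx_adj hl hn τ hz (p := p.1) (by
    have := q.2
    omega) (ol11_val hl hn h0 τ hz p) ?_
  rw [← hpq]
  exact ol11_val hl hn h0 τ hz q

theorem tk_ge {l n : ℕ} (hl : 3 ≤ l) (hn : l < n) :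
    (8 * l * (l + 1) * (2 * (n / l - 2) * (n / l - 3 - l) ^ l) : ℕ) ≤ Tk (ring l n) (2 * l + 2) := by
  have h0 : 0 < n := by omega
  obtain ⟨S, hS⟩ : ∃ S : Finset (Σ _ : Tm l, Fin (l + 2) → Fin n),
    S = univ.sigma fun τ => Zs l n τ := ⟨_, rfl⟩
  obtain ⟨F, hF⟩ : ∃ F : (Σ _ : Tm l, Fin (l + 2) → Fin n) → List (Fin n),
    F = fun x => ol11F l n h0 x.1 x.2 := ⟨_, rfl⟩
  have hmem : ∀ x ∈ S, x.2 ∈ Zs l n x.1 := fun x hx => by
    rw [hS, mem_sigma] at hx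
    exact hx.2
  have hinj : Set.InjOn F S := by
    rintro ⟨τ, z⟩ hx ⟨τ', z'⟩ hx' h
    have hz := hmem _ hx
    have hz' := hmem _ hx'
    rw [hF] at h
    have h1 : ol11F l n h0 τ z = ol11F l n h0 τ' z' := h
    unfold ol11F at h1
    rw [List.ofFn_inj] at h1
    obtain ⟨e1, e2⟩ := vx_unique hl hn τ τ' hz hz' (fun p hp => by
      have h2 := congrArg Fin.val (congrFun h1 ⟨p, hp⟩)
      rw [ol11_val hl hn h0 τ hz ⟨p, hp⟩, ol11_val hl hn h0 τ' hz' ⟨p, hp⟩] at h2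
      exact h2)
    subst e1
    subst e2
    rfl
  have h1 : ((S.image F).card : ℝ) ≤ Tk (ring l n) (2 * l + 2) := by
    unfold Tk
    have h2 : ((S.image F).card : ℝ) = ∑ L ∈ S.image F, pw (aj (ring l n)) L := by
      rw [card_eq_sum_ones]
      push_cast
      refine sum_congr rfl fun L hL => ?_
      obtain ⟨x, hx, rfl⟩ := mem_image.1 hL
      rw [hF]
      exact (ol11_one hl hn h0 x.1 (hmem x hx)).symm
    rw [h2]
    refine sum_le_sum_of_subset_of_nonneg (fun L hL => ?_) fun L _ _ => ?_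
    · obtain ⟨x, hx, rfl⟩ := mem_image.1 hL
      rw [hF]
      exact ol11_mem hl hn h0 x.1 (hmem x hx)
    · refine OD.pw_nonneg _ (fun a b => ?_) L
      unfold aj
      split_ifs <;> norm_num
  rw [card_image_of_injOn hinj] at h1
  refine le_trans ?_ h1
  rw [hS, card_sigma]
  have h3 : 8 * l * (l + 1) * (2 * (n / l - 2) * (n / l - 3 - l) ^ l)
      = ∑ _τ : Tm l, 2 * (n / l - 2) * (n / l - 3 - l) ^ l := by
    rw [sum_const, card_univ, smul_eq_mul]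
    congr 1
    simp only [Tm, Fintype.card_prod, Fintype.card_bool, Fintype.card_fin]
    ring
  rw [h3]
  exact_mod_cast sum_le_sum fun τ _ => card_Zs hl τ

theorem ol11_bern {x c : ℝ} (hc : 0 ≤ c) (hx : c ≤ x) (k : ℕ) :
    x ^ (k + 1) - (k + 1) * c * x ^ k ≤ (x - c) ^ (k + 1) := by
  induction k with
  | zero => simp
  | succ k ih =>
    have h1 : 0 ≤ x - c := sub_nonneg.2 hx
    have h2 := mul_le_mul_of_nonneg_left ih h1
    have h3 : (x - c) ^ (k + 1 + 1) = (x - c) * (x - c) ^ (k + 1) := by ring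
    have hx0 : 0 ≤ x := hc.trans hx
    have h4 : 0 ≤ ((k : ℝ) + 1) * c ^ 2 * x ^ k := by positivity
    rw [h3]
    push_cast
    refine le_trans ?_ h2
    have h5 : (x - c) * (x ^ (k + 1) - (k + 1) * c * x ^ k)
        = x ^ (k + 1 + 1) - (k + 1 + 1) * c * x ^ (k + 1) + ((k : ℝ) + 1) * c ^ 2 * x ^ k := by
      ring
    rw [h5]
    linarith

theorem lower {l : ℕ} (hl : 3 ≤ l) : ∃ C : ℝ, ∀ n : ℕ, l < n → ∃ G : SimpleGraph (Fin n),
    IsPlanar G ∧ 8 * l * (l + 1) * ((n : ℝ) / l) ^ (l + 1) - C * (n : ℝ) ^ l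
      ≤ (G.copyCount (SimpleGraph.pathGraph (2 * l + 2)) : ℝ) := by
  refine ⟨8 * l * (l + 1) * ((l + 1) * (l + 5)), fun n hn => ⟨ring l n, ring_planar hl hn, ?_⟩⟩
  have h1 := le_copy (ring l n) (2 * l + 2) (by omega)
  have h2 := tk_ge hl hn
  have hl0 : (0 : ℝ) < l := by
    have : 0 < l := by omega
    exact_mod_cast this
  have hl1 : (1 : ℝ) ≤ l := by
    have : 1 ≤ l := by omega
    exact_mod_cast this
  obtain ⟨x, hx⟩ : ∃ x : ℝ, x = (n : ℝ) / l := ⟨_, rfl⟩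
  have hx0 : 0 ≤ x := by
    rw [hx]
    positivity
  have hxn : x ≤ n := by
    rw [hx, div_le_iff₀ hl0]
    have : (0 : ℝ) ≤ n := Nat.cast_nonneg n
    nlinarith
  obtain ⟨q, hq⟩ : ∃ q : ℕ, q = n / l := ⟨_, rfl⟩
  have hqx : x - 1 ≤ q := by
    have h3 : n < l * (q + 1) := by
      rw [hq]
      exact Nat.lt_mul_div_succ n (by omega)
    have h4 : (n : ℝ) < l * (q + 1) := by exact_mod_cast h3
    rw [hx]
    have h5 : (n : ℝ) / l < q + 1 := by
      rw [div_lt_iff₀ hl0]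
      linarith
    linarith
  rw [← hq] at h2
  rw [← hx]
  have hA : x - (l + 5) ≤ ((q - 2 : ℕ) : ℝ) := by
    have h3 : (q : ℝ) ≤ ((q - 2 : ℕ) : ℝ) + 2 := by
      have : q ≤ (q - 2) + 2 := by omega
      exact_mod_cast this
    linarith
  have hB : x - (l + 5) ≤ ((q - 3 - l : ℕ) : ℝ) := by
    have h3 : (q : ℝ) ≤ ((q - 3 - l : ℕ) : ℝ) + 3 + l := by
      have : q ≤ (q - 3 - l) + 3 + l := by omega
      exact_mod_cast this
    linarith
  have hxl : x ^ l ≤ (n : ℝ) ^ l := pow_le_pow_left₀ hx0 hxn l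
  have hc : (0 : ℝ) ≤ 8 * l * (l + 1) := by positivity
  have h6 : (8 * l * (l + 1) * (2 * ((q - 2 : ℕ) * ((q - 3 - l : ℕ) : ℝ) ^ l)) : ℝ)
      ≤ 2 * ((ring l n).copyCount (SimpleGraph.pathGraph (2 * l + 2)) : ℝ) := by
    refine le_trans (le_of_eq ?_) (h2.trans h1)
    push_cast
    ring
  have h7 : (8 * l * (l + 1) * ((q - 2 : ℕ) * ((q - 3 - l : ℕ) : ℝ) ^ l) : ℝ)
      ≤ ((ring l n).copyCount (SimpleGraph.pathGraph (2 * l + 2)) : ℝ) := by linarith
  refine le_trans ?_ h7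
  rcases le_or_gt 0 (x - (l + 5)) with hy | hy
  · have h8 := ol11_bern (x := x) (c := l + 5) (by positivity) (by linarith) l
    have h9 : (x - (l + 5)) ^ (l + 1) ≤ (q - 2 : ℕ) * ((q - 3 - l : ℕ) : ℝ) ^ l := by
      rw [pow_succ']
      exact mul_le_mul hA (pow_le_pow_left₀ hy hB l) (pow_nonneg hy l) (Nat.cast_nonneg _)
    have h10 := mul_le_mul_of_nonneg_left (h8.trans h9) hc
    have h11 : 8 * l * (l + 1) * ((l + 1) * (l + 5)) * x ^ l
        ≤ 8 * l * (l + 1) * ((l + 1) * (l + 5)) * (n : ℝ) ^ l :=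
      mul_le_mul_of_nonneg_left hxl (by positivity)
    refine le_trans ?_ h10
    rw [mul_sub]
    linarith
  · have h8 : x ^ (l + 1) ≤ (l + 5) * x ^ l := by
      rw [pow_succ']
      exact mul_le_mul_of_nonneg_right (by linarith) (pow_nonneg hx0 l)
    have h9 : x ^ (l + 1) ≤ ((l + 1) * (l + 5)) * (n : ℝ) ^ l := by
      refine h8.trans ?_
      have h10 : ((l : ℝ) + 5) * x ^ l ≤ (l + 5) * (n : ℝ) ^ l :=
        mul_le_mul_of_nonneg_left hxl (by positivity)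
      refine h10.trans ?_
      have h11 : 0 ≤ ((l : ℝ) + 5) * (n : ℝ) ^ l := by positivity
      nlinarith
    have h10 := mul_le_mul_of_nonneg_left h9 hc
    have h11 : (0 : ℝ) ≤ 8 * l * (l + 1) * ((q - 2 : ℕ) * ((q - 3 - l : ℕ) : ℝ) ^ l) := by
      positivity
    linarith

end

end Pool.Agent.Lib.MP_009d13_co.OL
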